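import Pool.Agent.Lib_helper77.KSSP.Hilb
import Pool.Agent.Lib_helper56.KSS.T

/-!
# KSS: the proved interface (torus lemma, log canonicity, toric base, Hilbert function)
-/

namespace Pool.Agent.KSS

open MvPolynomial

/-- (T) the torus lemma -/
theorem torus_lemma {p : ℕ} (d : Fin p → ℕ) (hd : ∀ i, 1 ≤ d i) (v : ℕ) (j : Fin p)
    (hv : d j < v) (M0 : ℕ)
    (k : Type) [Field k] [CharZero k] (G : Fin p → MvPolynomial (Fin v) k) (hG : Gen d G)
    (κ : Type) [Field κ] [Algebra k κ] (L : ℕ) (x : Fin v → Fin L → κ) :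
    ∃ (k' : Type) (_ : Field k') (_ : CharZero k')
      (G' : Fin p → MvPolynomial (Fin (v - d j)) k') (κ' : Type) (_ : Field κ')
      (_ : Algebra k' κ') (x' : Fin (v - d j) → Fin L → κ') (e : Fin (d j) → ℕ) (η : ℕ),
      Gen d G' ∧ (∀ l, e l ≤ L) ∧ η ≤ L ∧
      (∀ i, i ≠ j → ordL L (ev x (G i)) ≤ ordL L (ev x' (G' i))) ∧
      ordL L (ev x (G j)) ≤ η ∧
      ordL L (ev x' (G' j)) = min L (∑ l, e l) ∧
      tauJ k x + η + (∑ l, e l - L) ≤ tauJ k' x' + d j * L ∧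
      ∀ m ≤ M0, ∀ l, 1 ≤ l → l ≤ L →
        Module.finrank k (Fil k x m l) ≤
          ∑ a ∈ Exps (d j) m, Module.finrank k'
            (Fil k' x' (m - ∑ i, a i) (l - (∑ i, (a i - mina a) * e i + mina a * η))) :=
  Pool.Agent.Lib_helper56.KSS.torus_lemma d hd v j hv M0 k G hG κ L x

/-- (LC) log canonicity -/
theorem lc_lemma {p : ℕ} (d : Fin p → ℕ) (_hd : ∀ i, 1 ≤ d i) (v : ℕ) (c : Fin p → ℝ)
    (hc0 : ∀ i, 0 ≤ c i) (hc1 : ∀ i, c i ≤ 1) (hc : ∑ i, c i * d i ≤ v)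
    (k : Type) [Field k] [CharZero k] (G : Fin p → MvPolynomial (Fin v) k) (hG : Gen d G)
    (κ : Type) [Field κ] [Algebra k κ] (L : ℕ) (x : Fin v → Fin L → κ) :
    ∑ i, c i * (ordL L (ev x (G i)) : ℝ) ≤ (v : ℝ) * L - tauJ k x :=
  Pool.Agent.Lib_helper56.KSS.lc_lemma d v c hc0 hc1 hc k G hG κ L x

/-- (TOR) the toric base -/
theorem toric_base (v : ℕ) (k : Type) [Field k] [CharZero k]
    (κ : Type) [Field κ] [Algebra k κ] (L : ℕ) (x : Fin v → Fin L → κ) (m : ℕ) :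
    (v : ℝ) * ∑ l ∈ Finset.Icc 1 L, (Module.finrank k (Fil k x m l) : ℝ)
      ≤ m * (Module.finrank k (homogeneousSubmodule (Fin v) k m) : ℝ) *
        ((v : ℝ) * L - tauJ k x) :=
  Pool.Agent.Lib_helper56.KSS.toric_base v k κ L x m

/-- (HF) Hilbert function of generic forms -/
theorem hilb {p : ℕ} (d : Fin p → ℕ) (hd : ∀ i, 1 ≤ d i) (v : ℕ) (B : Finset (Fin p))
    (hB : B.card ≤ v)
    (k : Type) [Field k] [CharZero k] (G : Fin p → MvPolynomial (Fin v) k) (hG : Gen d G)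
    (m : ℕ) :
    (Module.finrank k (IM (G '' (B : Set (Fin p))) m) : ℤ) = NN d v ∅ m - NN d v B m :=
  hilb_pr d hd v B hB k G hG m

/-- number of monomials -/
theorem finrank_hom (k : Type) [Field k] {p : ℕ} (d : Fin p → ℕ) (v m : ℕ) :
    (Module.finrank k (homogeneousSubmodule (Fin v) k m) : ℤ) = NN d v ∅ m :=
  finrank_hom_pr k d v m

end Pool.Agent.KSS
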