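import Pool.Agent.Lib_helper77.KSS.Defs

/-!
# KSS, numerical part (helper2): definitions

`GE e = ∑_{b ≥ 1} X^(b e)`, `PW d w = ∑_{a ∈ ℕ^d} w(a) X^|a|`.
-/

namespace Pool.Agent.KSS

/-- `∑_{b ≥ 1} X^{b e}` -/
noncomputable def GE (e : ℕ) : PowerSeries ℤ :=
  PowerSeries.mk fun n => if 0 < n ∧ e ∣ n then 1 else 0

/-- `∑_{a ∈ ℕ^d} w(a) X^{|a|}` -/
noncomputable def PW (d : ℕ) (w : (Fin d → ℕ) → ℤ) : PowerSeries ℤ :=
  PowerSeries.mk fun n => ∑ a ∈ (Exps d n).filter (fun a => ∑ i, a i = n), w a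

end Pool.Agent.KSS
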