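import Pool.Agent.Lib_helper2.KSSP.SG

/-!
# KSS (helper2): the main estimate
-/

namespace Pool.Agent.KSS

open MvPolynomial

/-- first exit of a finite family of affine functions -/
theorem mn_exit {p : ℕ} (a b : Fin p → ℝ) (T : ℝ) (h1 : ∀ i, a i + b i * 1 ≤ 1)
    (hT : ∃ i, 1 < a i + b i * T) (hT1 : 1 ≤ T) :
    ∃ j t, 1 ≤ t ∧ t < T ∧ a j + b j * t = 1 ∧ ∀ i, a i + b i * t ≤ 1 := by
  classical
  obtain ⟨i0, hi0⟩ := hT
  have hb : ∀ i, 1 < a i + b i * T → 0 < b i := by
    intro i hi
    have := h1 i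
    by_contra hneg
    push Not at hneg
    nlinarith
  obtain ⟨j, hj, hmin⟩ := Finset.exists_min_image
    (Finset.univ.filter fun i => 1 < a i + b i * T) (fun i => (1 - a i) / b i)
    ⟨i0, by simp [hi0]⟩
  rw [Finset.mem_filter] at hj
  have hbj := hb j hj.2
  have ht1 : 1 ≤ (1 - a j) / b j := by
    rw [le_div_iff₀ hbj]
    have := h1 j
    linarith
  have htT : (1 - a j) / b j < T := by
    rw [div_lt_iff₀ hbj]
    have := hj.2
    linarith
  refine ⟨j, (1 - a j) / b j, ht1, htT, ?_, ?_⟩
  · field_simp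
    ring
  · intro i
    by_cases hi : 1 < a i + b i * T
    · have hbi := hb i hi
      have h3 := hmin i (by simp [hi])
      have h4 : b i * ((1 - a j) / b j) ≤ b i * ((1 - a i) / b i) :=
        mul_le_mul_of_nonneg_left h3 hbi.le
      have h5 : b i * ((1 - a i) / b i) = 1 - a i := by field_simp
      linarith
    · push Not at hi
      have h6 := h1 i
      set t := (1 - a j) / b j with ht
      by_cases hbi : 0 ≤ b i
      · nlinarith
      · push Not at hbi
        nlinarith

section

variable {p : ℕ} (d : Fin p → ℕ) (hd : ∀ i, 1 ≤ d i) (v : ℕ) (M0 : ℕ)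

/-- the toric estimate, weighted -/
theorem mn_toric {k κ : Type} [Field k] [CharZero k] [Field κ] [Algebra k κ] {L : ℕ}
    (x : Fin v → Fin L → κ) (ν : ℕ → ℝ) (hν : ∀ m, 0 ≤ ν m) :
    (v : ℝ) * ∑ m ∈ Finset.range (M0 + 1), ν m * sigB k d ∅ x m
      ≤ (∑ m ∈ Finset.range (M0 + 1), ν m * (m * (NN d v ∅ m : ℝ)))
        * ((v : ℝ) * L - tauJ k x) := by
  rw [Finset.mul_sum, Finset.sum_mul]
  refine Finset.sum_le_sum fun m _ => ?_
  have h := toric_base v k κ L x m
  have h1 : sigB k d ∅ x m = ∑ l ∈ Finset.Icc 1 L, (Module.finrank k (Fil k x m l) : ℝ) := by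
    unfold sigB
    refine Finset.sum_congr rfl fun l _ => ?_
    ring
  have h2 : (Module.finrank k (homogeneousSubmodule (Fin v) k m) : ℝ) = (NN d v ∅ m : ℝ) := by
    exact_mod_cast congrArg (Int.cast : ℤ → ℝ) (finrank_hom k d v m)
  rw [h2, ← h1] at h
  have h3 := mul_le_mul_of_nonneg_left h (hν m)
  linarith

include hd

/-- no weights: log canonicity -/
theorem mn_lc (hv : 1 ≤ v) (c : Fin p → ℝ) (ν : ℕ → ℝ) (hR : Reg d v ∅ M0 c ν)
    (hρ : ∑ m ∈ Finset.range (M0 + 1), ν m * (m * (NN d v ∅ m : ℝ)) = 0) :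
    SS d v ∅ M0 c ν := by
  intro k _ _ G hG κ _ _ L x _
  obtain ⟨hc, hν, h1, h2⟩ := hR
  have hv' : (0 : ℝ) < v := by exact_mod_cast hv
  have ht := mn_toric (k := k) d v M0 x ν hν
  rw [hρ, zero_mul] at ht
  have ht2 : ∑ m ∈ Finset.range (M0 + 1), ν m * sigB k d ∅ x m ≤ 0 := by
    by_contra hneg
    push Not at hneg
    have := mul_pos hv' hneg
    linarith
  rw [hρ, add_zero, Finset.sum_empty, sub_zero, Finset.compl_empty] at h1
  have hc1 : ∀ i, c i ≤ 1 := by
    intro i
    have h3 := h2 i (by simp)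
    have h4 : 0 ≤ ∑ m ∈ Finset.range (M0 + 1), ν m * (HSum d v ∅ (d i) m : ℝ) :=
      Finset.sum_nonneg fun m _ => mul_nonneg (hν m)
        (by exact_mod_cast nc_HSum_nonneg d hd v ∅ (by simp) _ _)
    linarith
  have h5 := lc_lemma d hd v c hc hc1 h1 k G hG κ L x
  rw [Finset.compl_empty, Finset.card_empty, Nat.cast_zero, sub_zero]
  linarith

/-- the case without equations -/
theorem mn_empty (v : ℕ) (hv : 1 ≤ v) (c : Fin p → ℝ) (ν : ℕ → ℝ) (hR : Reg d v ∅ M0 c ν) :
    SS d v ∅ M0 c ν := by
  induction v using Nat.strong_induction_on generalizing c ν with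
  | _ v ih =>
  have hv' : (0 : ℝ) < v := by exact_mod_cast hv
  obtain ⟨hc, hν, h1, h2⟩ := id hR
  set ρ : ℝ := ∑ m ∈ Finset.range (M0 + 1), ν m * (m * (NN d v ∅ m : ℝ)) with hρdef
  have hρ0 : 0 ≤ ρ := Finset.sum_nonneg fun m _ => mul_nonneg (hν m)
    (mul_nonneg (Nat.cast_nonneg _) (by exact_mod_cast nb_nonneg d hd v ∅ (by simp) m))
  have hcd : 0 ≤ ∑ i, c i * (d i : ℝ) :=
    Finset.sum_nonneg fun i _ => mul_nonneg (hc i) (Nat.cast_nonneg _)
  rw [Finset.sum_empty, sub_zero, Finset.compl_empty] at h1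
  have hα : ∀ i, 0 ≤ ∑ m ∈ Finset.range (M0 + 1), ν m * (HSum d v ∅ (d i) m : ℝ) :=
    fun i => Finset.sum_nonneg fun m _ => mul_nonneg (hν m)
        (by exact_mod_cast nc_HSum_nonneg d hd v ∅ (by simp) _ _)
  have hαρ : ∀ i, (v : ℝ) * ((d i : ℝ)
      * ∑ m ∈ Finset.range (M0 + 1), ν m * (HSum d v ∅ (d i) m : ℝ)) ≤ ρ := by
    intro i
    rw [hρdef, Finset.mul_sum, Finset.mul_sum]
    refine Finset.sum_le_sum fun m _ => ?_
    have h3 : ((d i : ℝ)) * (HSum d v ∅ (d i) m : ℝ) ≤ (HSum d v ∅ 1 m : ℝ) := by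
      exact_mod_cast nb_mono d v hv (d i) (hd i) m
    have h4 : (v : ℝ) * (HSum d v ∅ 1 m : ℝ) = m * (NN d v ∅ m : ℝ) := by
      exact_mod_cast congrArg (Int.cast : ℤ → ℝ) (nc_N6eq d hd v m)
    have h5 : (v : ℝ) * ((d i : ℝ) * (HSum d v ∅ (d i) m : ℝ)) ≤ m * (NN d v ∅ m : ℝ) := by
      rw [← h4]
      exact mul_le_mul_of_nonneg_left h3 hv'.le
    have h6 := mul_le_mul_of_nonneg_left h5 (hν m)
    linarith
  rcases eq_or_lt_of_le hρ0 with hρ | hρpos
  · exact mn_lc d hd v M0 hv c ν hR hρ.symm
  rcases lt_or_ge ρ (v : ℝ) with hρv | hρv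
  swap
  · -- ρ = v, the boundary is zero
    intro k _ _ G hG κ _ _ L x _
    have hρv' : ρ = v := le_antisymm (by linarith) hρv
    have hc0 : ∀ i, c i = 0 := by
      intro i
      have h3 : c i * (d i : ℝ) ≤ ∑ i, c i * (d i : ℝ) :=
        Finset.single_le_sum (f := fun i => c i * (d i : ℝ))
          (fun i _ => mul_nonneg (hc i) (Nat.cast_nonneg _)) (Finset.mem_univ i)
      have h4 : (1 : ℝ) ≤ d i := by exact_mod_cast hd i
      have h5 := hc i
      nlinarith
    have ht := mn_toric (k := k) d v M0 x ν hν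
    rw [← hρdef, hρv'] at ht
    have ht2 := le_of_mul_le_mul_left ht hv'
    rw [Finset.compl_empty, Finset.card_empty, Nat.cast_zero, sub_zero]
    have h6 : ∑ i, c i * (ordL L (ev x (G i)) : ℝ) = 0 :=
      Finset.sum_eq_zero fun i _ => by rw [hc0 i, zero_mul]
    linarith
  · -- the ray
    have hvρ : 0 < (v : ℝ) - ρ := by linarith
    set T : ℝ := v / (v - ρ) with hTdef
    have hT1 : 1 ≤ T := by
      rw [hTdef, le_div_iff₀ hvρ]
      linarith
    have hTmul : T * (v - ρ) = v := by
      rw [hTdef]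
      field_simp
    have key : ∃ t : ℝ, 1 ≤ t ∧ SS d v ∅ M0 (fun i => t * c i)
        (fun m => (v / ρ - t * (v / ρ - 1)) * ν m) := by
      -- region along the ray
      have hreg : ∀ t : ℝ, 1 ≤ t → t ≤ T →
          (∀ i, t * c i + (v / ρ - t * (v / ρ - 1))
            * ∑ m ∈ Finset.range (M0 + 1), ν m * (HSum d v ∅ (d i) m : ℝ) ≤ 1) →
          Reg d v ∅ M0 (fun i => t * c i) (fun m => (v / ρ - t * (v / ρ - 1)) * ν m) := by
        intro t ht ht2 hf
        have hy : 0 ≤ v / ρ - t * (v / ρ - 1) := by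
          have h3 : ρ * (v / ρ - t * (v / ρ - 1)) = v - t * (v - ρ) := by
            field_simp
          have h4 : t * (v - ρ) ≤ v :=
            (mul_le_mul_of_nonneg_right ht2 hvρ.le).trans (le_of_eq hTmul)
          by_contra hneg
          push Not at hneg
          have := mul_neg_of_pos_of_neg hρpos hneg
          linarith
        refine ⟨fun i => mul_nonneg (by linarith) (hc i), fun m => mul_nonneg hy (hν m), ?_, ?_⟩
        · rw [Finset.sum_empty, sub_zero, Finset.compl_empty]
          have e1 : ∑ i, t * c i * (d i : ℝ) = t * ∑ i, c i * (d i : ℝ) := by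
            rw [Finset.mul_sum]
            exact Finset.sum_congr rfl fun i _ => by ring
          have e2 : ∑ m ∈ Finset.range (M0 + 1), (v / ρ - t * (v / ρ - 1)) * ν m
              * (m * (NN d v ∅ m : ℝ)) = v - t * (v - ρ) := by
            have e3 : ∑ m ∈ Finset.range (M0 + 1), (v / ρ - t * (v / ρ - 1)) * ν m
              * (m * (NN d v ∅ m : ℝ)) = (v / ρ - t * (v / ρ - 1)) * ρ := by
              rw [hρdef, Finset.mul_sum]
              exact Finset.sum_congr rfl fun m _ => by ring
            rw [e3]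
            field_simp
          rw [e1, e2]
          nlinarith
        · intro i _
          have e1 : ∑ m ∈ Finset.range (M0 + 1), (v / ρ - t * (v / ρ - 1)) * ν m
              * (HSum d v ∅ (d i) m : ℝ) = (v / ρ - t * (v / ρ - 1))
                * ∑ m ∈ Finset.range (M0 + 1), ν m * (HSum d v ∅ (d i) m : ℝ) := by
            rw [Finset.mul_sum]
            exact Finset.sum_congr rfl fun m _ => by ring
          rw [e1]
          exact hf i
      by_cases hall : ∀ i, T * c i ≤ 1
      · refine ⟨T, hT1, ?_⟩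
        have hy0 : v / ρ - T * (v / ρ - 1) = 0 := by
          have h3 : ρ * (v / ρ - T * (v / ρ - 1)) = v - T * (v - ρ) := by
            field_simp
          rw [hTmul, sub_self] at h3
          rcases mul_eq_zero.mp h3 with h4 | h4
          · linarith
          · exact h4
        refine mn_lc d hd v M0 hv _ _ (hreg T hT1 le_rfl fun i => ?_) ?_
        · rw [hy0, zero_mul, add_zero]
          exact hall i
        · rw [hy0]
          simp
      · push Not at hall
        have hv2 : 2 ≤ v := by
          by_contra hlt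
          have hv1 : v = 1 := by omega
          obtain ⟨i, hi⟩ := hall
          have h3 : c i * (d i : ℝ) ≤ ∑ i, c i * (d i : ℝ) :=
            Finset.single_le_sum (f := fun i => c i * (d i : ℝ))
              (fun i _ => mul_nonneg (hc i) (Nat.cast_nonneg _)) (Finset.mem_univ i)
          have h4 : (1 : ℝ) ≤ d i := by exact_mod_cast hd i
          have h5 := hc i
          have h6 : c i ≤ v - ρ := by nlinarith
          have h7 : T * c i ≤ T * (v - ρ) := mul_le_mul_of_nonneg_left h6 (by linarith)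
          rw [hTmul, hv1] at h7
          norm_num at h7
          linarith
        have hTy : v / ρ - T * (v / ρ - 1) = 0 := by
          have h3 : ρ * (v / ρ - T * (v / ρ - 1)) = v - T * (v - ρ) := by
            field_simp
          rw [hTmul, sub_self] at h3
          rcases mul_eq_zero.mp h3 with h4 | h4
          · linarith
          · exact h4
        obtain ⟨j, t, ht1, htT, htj, htall⟩ := mn_exit
          (fun i => v / ρ * ∑ m ∈ Finset.range (M0 + 1), ν m * (HSum d v ∅ (d i) m : ℝ))
          (fun i => c i - (v / ρ - 1)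
            * ∑ m ∈ Finset.range (M0 + 1), ν m * (HSum d v ∅ (d i) m : ℝ)) T
          (fun i => by
            have := h2 i (by simp)
            linarith)
          (by
            obtain ⟨i, hi⟩ := hall
            refine ⟨i, ?_⟩
            have e1 : v / ρ * ∑ m ∈ Finset.range (M0 + 1), ν m * (HSum d v ∅ (d i) m : ℝ)
              + (c i - (v / ρ - 1)
                * ∑ m ∈ Finset.range (M0 + 1), ν m * (HSum d v ∅ (d i) m : ℝ)) * T
              = T * c i + (v / ρ - T * (v / ρ - 1))
                * ∑ m ∈ Finset.range (M0 + 1), ν m * (HSum d v ∅ (d i) m : ℝ) := by ring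
            rw [e1, hTy, zero_mul, add_zero]
            exact hi) hT1
        have hf : ∀ i, t * c i + (v / ρ - t * (v / ρ - 1))
            * ∑ m ∈ Finset.range (M0 + 1), ν m * (HSum d v ∅ (d i) m : ℝ) ≤ 1 := by
          intro i
          have := htall i
          linarith
        have hfj : t * c j + (v / ρ - t * (v / ρ - 1))
            * ∑ m ∈ Finset.range (M0 + 1), ν m * (HSum d v ∅ (d j) m : ℝ) = 1 := by
          linarith
        have hRt := hreg t ht1 htT.le hf
        refine ⟨t, ht1, ?_⟩
        -- positivity of the weights at `t`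
        have hypos : 0 < v - t * (v - ρ) := by
          have : t * (v - ρ) < T * (v - ρ) := mul_lt_mul_of_pos_right htT hvρ
          linarith
        have hyρ : (v / ρ - t * (v / ρ - 1)) * ρ = v - t * (v - ρ) := by
          field_simp
        have hy0 : 0 ≤ v / ρ - t * (v / ρ - 1) := by
          by_contra hneg
          push Not at hneg
          have := mul_neg_of_neg_of_pos hneg hρpos
          linarith
        -- the degree is smaller than `v`
        have hdj : d j < v := by
          by_contra hge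
          push Not at hge
          have hge' : (v : ℝ) ≤ d j := by exact_mod_cast hge
          have hv2' : (2 : ℝ) ≤ v := by exact_mod_cast hv2
          set A : ℝ := ∑ m ∈ Finset.range (M0 + 1), ν m * (HSum d v ∅ (d j) m : ℝ) with hA
          have a1 := hαρ j
          rw [← hA] at a1
          have a2 : c j * (d j : ℝ) ≤ ∑ i, c i * (d i : ℝ) :=
            Finset.single_le_sum (f := fun i => c i * (d i : ℝ))
              (fun i _ => mul_nonneg (hc i) (Nat.cast_nonneg _)) (Finset.mem_univ j)
          have a3 : t * (c j * (d j : ℝ)) ≤ t * (v - ρ) :=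
            mul_le_mul_of_nonneg_left (by linarith) (by linarith)
          -- multiply the facet equality by v * d j
          have a4 : (v : ℝ) * (d j : ℝ) = v * (t * (c j * d j))
              + (v / ρ - t * (v / ρ - 1)) * (v * (d j * A)) := by
            have := congrArg (fun z : ℝ => (v : ℝ) * (d j : ℝ) * z) hfj
            linarith
          have a5 : (v / ρ - t * (v / ρ - 1)) * (v * (d j * A))
              ≤ (v / ρ - t * (v / ρ - 1)) * ρ := mul_le_mul_of_nonneg_left a1 hy0
          rw [hyρ] at a5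
          have a6 : (v : ℝ) * (t * (c j * d j)) ≤ v * (t * (v - ρ)) :=
            mul_le_mul_of_nonneg_left a3 hv'.le
          have a7 : (v : ℝ) * v ≤ v * d j := mul_le_mul_of_nonneg_left hge' hv'.le
          have a8 : (v : ℝ) * (v - t * (v - ρ)) ≤ v - t * (v - ρ) := by nlinarith
          nlinarith
        refine sg_step_F d hd v j hdj M0 _ _ hRt ?_
        refine ih (v - d j) (by have := hd j; omega) (by omega) _ _ ?_
        refine rt_F d hd v j M0 _ _ hdj hRt ?_
        have e1 : ∑ m ∈ Finset.range (M0 + 1), (v / ρ - t * (v / ρ - 1)) * ν m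
              * (HSum d v ∅ (d j) m : ℝ) = (v / ρ - t * (v / ρ - 1))
                * ∑ m ∈ Finset.range (M0 + 1), ν m * (HSum d v ∅ (d j) m : ℝ) := by
          rw [Finset.mul_sum]
          exact Finset.sum_congr rfl fun m _ => by ring
        rw [e1]
        exact hfj.ge
    obtain ⟨t, ht1, hSS⟩ := key
    intro k _ _ G hG κ _ _ L x hx
    have hF1 := hSS k G hG κ L x hx
    have hF0 := mn_toric (k := k) d v M0 x ν hν
    rw [← hρdef] at hF0
    rw [Finset.compl_empty, Finset.card_empty, Nat.cast_zero, sub_zero] at hF1 ⊢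
    have e1 : ∑ i, t * c i * (ordL L (ev x (G i)) : ℝ)
        = t * ∑ i, c i * (ordL L (ev x (G i)) : ℝ) := by
      rw [Finset.mul_sum]
      exact Finset.sum_congr rfl fun i _ => by ring
    have e2 : ∑ m ∈ Finset.range (M0 + 1), (v / ρ - t * (v / ρ - 1)) * ν m * sigB k d ∅ x m
        = (v / ρ - t * (v / ρ - 1))
          * ∑ m ∈ Finset.range (M0 + 1), ν m * sigB k d ∅ x m := by
      rw [Finset.mul_sum]
      exact Finset.sum_congr rfl fun i _ => by ring
    rw [e1, e2] at hF1
    set S : ℝ := ∑ m ∈ Finset.range (M0 + 1), ν m * sigB k d ∅ x m with hS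
    set O : ℝ := ∑ i, c i * (ordL L (ev x (G i)) : ℝ) with hO
    have hF0' : v / ρ * S ≤ (v : ℝ) * L - tauJ k x := by
      rw [div_mul_eq_mul_div, div_le_iff₀ hρpos]
      linarith
    have h8 : t * (O + S) ≤ t * ((v : ℝ) * L - tauJ k x) := by
      have h9 := mul_le_mul_of_nonneg_left hF0' (by linarith : (0 : ℝ) ≤ t - 1)
      have e3 : (v / ρ - t * (v / ρ - 1)) * S + (t - 1) * (v / ρ * S) = t * S := by ring
      nlinarith
    exact le_of_mul_le_mul_left h8 (by linarith)

end

/-- MAIN ESTIMATE -/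
theorem SS_main {p : ℕ} (d : Fin p → ℕ) (hd : ∀ i, 1 ≤ d i) (v : ℕ) (B : Finset (Fin p))
    (hB : ∑ i ∈ B, d i < v) (M0 : ℕ) (c : Fin p → ℝ) (ν : ℕ → ℝ) (hR : Reg d v B M0 c ν) :
    SS d v B M0 c ν := by
  induction B using Finset.induction_on generalizing v c ν with
  | empty => exact mn_empty d hd M0 v (by omega) c ν hR
  | insert j B hj ih =>
    refine sg_step_T d hd v B j hj hB M0 c ν hR ?_
    refine ih (v - d j) ?_ _ _ (rt_T d hd v B j M0 c ν hj hB hR)
    rw [Finset.sum_insert hj] at hB
    omega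

end Pool.Agent.KSS
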