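import Pool.Agent.Lib_helper2.KSSP.GP

/-! KSS, block NA: sums over exponents as power series. -/

namespace Pool.Agent.KSS

open MvPolynomial

theorem na_memEx {d m : ℕ} {a : Fin d → ℕ} : a ∈ Exps d m ↔ ∑ i, a i ≤ m := by
  unfold Exps
  rw [Finset.mem_filter, Fintype.mem_piFinset]
  constructor
  · exact fun h => h.2
  · intro h
    refine ⟨fun i => ?_, h⟩
    rw [Finset.mem_range]
    have : a i ≤ ∑ i, a i := Finset.single_le_sum (fun _ _ => Nat.zero_le _) (Finset.mem_univ i)
    omega

theorem na_memSx {d n : ℕ} {a : Fin d → ℕ} :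
    a ∈ (Exps d n).filter (fun a => ∑ i, a i = n) ↔ ∑ i, a i = n := by
  rw [Finset.mem_filter, na_memEx]
  constructor
  · exact fun h => h.2
  · intro h
    exact ⟨h.le, h⟩

theorem na_coeff (d : ℕ) (w : (Fin d → ℕ) → ℤ) (H : PowerSeries ℤ) (m : ℕ) :
    PowerSeries.coeff m (PW d w * H)
      = ∑ a ∈ Exps d m, w a * PowerSeries.coeff (m - ∑ i, a i) H := by
  rw [PowerSeries.coeff_mul, Finset.Nat.sum_antidiagonal_eq_sum_range_succ
    (fun i j => PowerSeries.coeff i (PW d w) * PowerSeries.coeff j H) m]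
  rw [← Finset.sum_fiberwise_of_maps_to (s := Exps d m) (t := Finset.range (m + 1))
    (g := fun a => ∑ i, a i) (fun a ha => by
      rw [Finset.mem_range]
      have := na_memEx.1 ha
      omega)]
  refine Finset.sum_congr rfl (fun n hn => ?_)
  have hn' : n ≤ m := by
    rw [Finset.mem_range] at hn
    omega
  unfold PW
  rw [PowerSeries.coeff_mk, Finset.sum_mul]
  have hset : (Exps d m).filter (fun a => ∑ i, a i = n) =
      (Exps d n).filter (fun a => ∑ i, a i = n) := by
    ext a
    rw [na_memSx, Finset.mem_filter, na_memEx]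
    constructor
    · exact fun h => h.2
    · intro h
      exact ⟨by omega, h⟩
  rw [hset]
  refine Finset.sum_congr rfl (fun a ha => ?_)
  rw [na_memSx.1 ha]

theorem na_genx (d : ℕ) (e : Fin d → ℕ) (w : (Fin d → ℕ) → ℤ) (n : ℕ) :
    ∑ a ∈ (Exps d n).filter (fun a => ∑ i, a i = n), (if ∀ i, e i ≤ a i then w a else 0) =
      if ∑ i, e i ≤ n then
        ∑ b ∈ (Exps d (n - ∑ i, e i)).filter (fun b => ∑ i, b i = n - ∑ i, e i),
          w (fun i => b i + e i) else 0 := by
  rw [← Finset.sum_filter]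
  split_ifs with h
  · refine Finset.sum_nbij' (fun a i => a i - e i) (fun b i => b i + e i) ?_ ?_ ?_ ?_ ?_
    · intro a ha
      rw [Finset.mem_filter, na_memSx] at ha
      rw [na_memSx]
      have h1 : ∑ i, (a i - e i) + ∑ i, e i = ∑ i, a i := by
        rw [← Finset.sum_add_distrib]
        exact Finset.sum_congr rfl (fun i _ => Nat.sub_add_cancel (ha.2 i))
      have := ha.1
      omega
    · intro b hb
      rw [na_memSx] at hb
      rw [Finset.mem_filter, na_memSx]
      refine ⟨?_, fun i => Nat.le_add_left _ _⟩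
      rw [Finset.sum_add_distrib]
      omega
    · intro a ha
      rw [Finset.mem_filter] at ha
      funext i
      exact Nat.sub_add_cancel (ha.2 i)
    · intro b _
      funext i
      exact Nat.add_sub_cancel (b i) (e i)
    · intro a ha
      rw [Finset.mem_filter] at ha
      congr 1
      funext i
      exact (Nat.sub_add_cancel (ha.2 i)).symm
  · refine Finset.sum_eq_zero (fun a ha => ?_)
    rw [Finset.mem_filter, na_memSx] at ha
    exact absurd ((Finset.sum_le_sum (fun i _ => ha.2 i)).trans ha.1.le) h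

theorem na_split_genx (d : ℕ) (e : Fin d → ℕ) (w : (Fin d → ℕ) → ℤ) :
    PW d w = PW d (fun a => if ∀ i, e i ≤ a i then 0 else w a)
      + (PowerSeries.X : PowerSeries ℤ) ^ (∑ i, e i) * PW d (fun a => w (fun i => a i + e i)) := by
  ext n
  rw [map_add, PowerSeries.coeff_X_pow_mul']
  have h := na_genx d e w n
  unfold PW
  rw [PowerSeries.coeff_mk, PowerSeries.coeff_mk, PowerSeries.coeff_mk]
  rw [← h, ← Finset.sum_add_distrib]
  refine Finset.sum_congr rfl (fun a _ => ?_)
  split_ifs <;> simp

theorem na_minax {d : ℕ} (hd : 1 ≤ d) (a : Fin d → ℕ) : mina a = 0 ↔ ¬ ∀ i, 1 ≤ a i := by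
  haveI : Nonempty (Fin d) := ⟨⟨0, hd⟩⟩
  unfold mina
  constructor
  · intro h h2
    obtain ⟨i, hi⟩ : (⨅ i, a i) ∈ Set.range a := Nat.sInf_mem (Set.range_nonempty a)
    have := h2 i
    omega
  · intro h
    push Not at h
    obtain ⟨i, hi⟩ := h
    have h1 : (⨅ i, a i) ≤ a i := Nat.sInf_le (Set.mem_range_self i)
    omega

theorem na_shift (d : ℕ) (hd : 1 ≤ d) (w : (Fin d → ℕ) → ℤ) :
    PW d w = PW d (fun a => if mina a = 0 then w a else 0)
      + (PowerSeries.X : PowerSeries ℤ) ^ d * PW d (fun a => w (fun i => a i + 1)) := by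
  have h := na_split_genx d (fun _ => 1) w
  simp only [Finset.sum_const, Finset.card_univ, Fintype.card_fin, smul_eq_mul, mul_one] at h
  rw [h]
  congr 2
  funext a
  have h2 := na_minax hd a
  by_cases h3 : ∀ i, 1 ≤ a i
  · rw [if_pos h3, if_neg (fun h4 => h2.1 h4 h3)]
  · rw [if_neg h3, if_pos (h2.2 h3)]

theorem na_shiftl (d : ℕ) (l : Fin d) (w : (Fin d → ℕ) → ℤ) :
    PW d w = PW d (fun a => if a l = 0 then w a else 0)
      + (PowerSeries.X : PowerSeries ℤ) * PW d (fun a => w (a + Pi.single l 1)) := by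
  have h := na_split_genx d (Pi.single l 1) w
  have h1 : ∑ i, (Pi.single l 1 : Fin d → ℕ) i = 1 := by
    rw [Finset.sum_pi_single']
    simp
  rw [h1, pow_one] at h
  rw [h]
  congr 2
  funext a
  have h2 : (∀ i, (Pi.single l 1 : Fin d → ℕ) i ≤ a i) ↔ ¬ a l = 0 := by
    constructor
    · intro h3
      have := h3 l
      rw [Pi.single_eq_same] at this
      omega
    · intro h3 i
      by_cases hi : i = l
      · subst hi
        rw [Pi.single_eq_same]
        omega
      · rw [Pi.single_eq_of_ne hi]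
        exact Nat.zero_le _
  by_cases h3 : a l = 0
  · rw [if_pos h3, if_neg (fun h4 => h2.1 h4 h3)]
  · rw [if_neg h3, if_pos (h2.2 h3)]

theorem na_consx (d : ℕ) : PW (d + 1) (fun a => if a 0 = 0 then 1 else 0) = PW d (fun _ => 1) := by
  ext n
  unfold PW
  rw [PowerSeries.coeff_mk, PowerSeries.coeff_mk, ← Finset.sum_filter]
  refine Finset.sum_nbij' (fun a => Fin.tail a) (fun b => Fin.cons 0 b) ?_ ?_ ?_ ?_ ?_
  · intro a ha
    rw [Finset.mem_filter, na_memSx, Fin.sum_univ_succ] at ha
    rw [na_memSx]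
    have h1 := ha.1
    rw [ha.2, zero_add] at h1
    exact h1
  · intro b hb
    rw [na_memSx] at hb
    rw [Finset.mem_filter, na_memSx, Fin.sum_univ_succ]
    simp only [Fin.cons_zero, Fin.cons_succ, zero_add]
    exact ⟨hb, trivial⟩
  · intro a ha
    rw [Finset.mem_filter] at ha
    have h1 : a 0 = 0 := ha.2
    conv_rhs => rw [← Fin.cons_self_tail a, h1]
  · intro b _
    exact Fin.tail_cons _ _
  · intro a _
    rfl

theorem na_one (d : ℕ) :
    PW d (fun _ => 1) = (PowerSeries.invOneSubPow ℤ d : (PowerSeries ℤ)ˣ) := by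
  induction d with
  | zero =>
    rw [PowerSeries.invOneSubPow_zero]
    ext n
    unfold PW
    rw [PowerSeries.coeff_mk, Units.val_one, PowerSeries.coeff_one]
    by_cases hn : n = 0
    · subst hn
      rw [if_pos rfl, Finset.sum_const]
      have : (Exps 0 0).filter (fun a => ∑ i, a i = 0) = Finset.univ := by
        ext a
        rw [na_memSx]
        simp only [Finset.univ_eq_empty, Finset.sum_empty, Finset.mem_univ]
      rw [this]
      simp
    · rw [if_neg hn]
      refine Finset.sum_eq_zero (fun a ha => ?_)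
      rw [na_memSx] at ha
      simp at ha
      exact absurd ha.symm hn
  | succ d ih =>
    have h1 := na_shiftl (d + 1) 0 (fun _ => 1)
    simp only at h1
    rw [na_consx, ih] at h1
    have h2 := PowerSeries.one_sub_pow_mul_invOneSubPow_val_add_eq_invOneSubPow_val ℤ d 1
    rw [pow_one] at h2
    have h3 : (1 - (PowerSeries.X : PowerSeries ℤ)) * PW (d + 1) (fun _ => 1) =
        (1 - PowerSeries.X) * (PowerSeries.invOneSubPow ℤ (d + 1) : (PowerSeries ℤ)ˣ).val := by
      rw [h2]
      linear_combination h1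
    have h4 : (1 - (PowerSeries.X : PowerSeries ℤ)) ≠ 0 := by
      intro h5
      have h6 := congrArg (PowerSeries.coeff 0) h5
      simp at h6
    exact mul_left_cancel₀ h4 h3


end Pool.Agent.KSS
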