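import Pool.Agent.Lib_helper2.KSSP.GP

/-! KSS, block NB: power series identities. -/

namespace Pool.Agent.KSS

open MvPolynomial

theorem nb_sumx (e : ℕ) (H : PowerSeries ℤ) (m : ℕ) :
    PowerSeries.coeff m (GE e * H)
      = ∑ i ∈ (Finset.range (m + 1)).filter (fun i => 0 < i ∧ e ∣ i),
        PowerSeries.coeff (m - i) H := by
  rw [PowerSeries.coeff_mul, Finset.Nat.sum_antidiagonal_eq_sum_range_succ
    (fun i j => PowerSeries.coeff i (GE e) * PowerSeries.coeff j H) m, Finset.sum_filter]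
  refine Finset.sum_congr rfl fun i _ => ?_
  unfold GE
  rw [PowerSeries.coeff_mk]
  split_ifs <;> simp

theorem nb_coeff (e : ℕ) (he : 1 ≤ e) (H : PowerSeries ℤ) (m : ℕ) :
    PowerSeries.coeff m (GE e * H)
      = ∑ b ∈ Finset.Icc 1 m, if b * e ≤ m then PowerSeries.coeff (m - b * e) H else 0 := by
  rw [nb_sumx, ← Finset.sum_filter]
  refine Finset.sum_nbij' (fun i => i / e) (fun b => b * e) ?_ ?_ ?_ ?_ ?_
  · intro i hi
    simp only [Finset.mem_filter, Finset.mem_range, Finset.mem_Icc] at hi ⊢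
    obtain ⟨h1, h2, k, rfl⟩ := hi
    have hk : 0 < k := Nat.pos_of_ne_zero fun h => by simp [h] at h2
    rw [Nat.mul_div_cancel_left _ he]
    refine ⟨⟨hk, ?_⟩, ?_⟩
    · nlinarith
    · rw [mul_comm]; omega
  · intro b hb
    simp only [Finset.mem_filter, Finset.mem_range, Finset.mem_Icc] at hb ⊢
    refine ⟨by omega, Nat.mul_pos hb.1.1 he, dvd_mul_left _ _⟩
  · intro i hi
    simp only [Finset.mem_filter, Finset.mem_range] at hi
    exact Nat.div_mul_cancel hi.2.2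
  · intro b hb
    exact Nat.mul_div_cancel _ he
  · intro i hi
    simp only [Finset.mem_filter, Finset.mem_range] at hi
    rw [Nat.div_mul_cancel hi.2.2]

theorem nb_GE (e : ℕ) (he : 1 ≤ e) :
    (1 - (PowerSeries.X : PowerSeries ℤ) ^ e) * GE e = (PowerSeries.X : PowerSeries ℤ) ^ e := by
  ext n
  rw [sub_mul, one_mul, map_sub, PowerSeries.coeff_X_pow_mul', PowerSeries.coeff_X_pow]
  unfold GE
  simp only [PowerSeries.coeff_mk]
  by_cases h1 : e ≤ n
  · obtain ⟨k, rfl⟩ := Nat.exists_eq_add_of_le h1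
    rw [if_pos h1, Nat.add_sub_cancel_left]
    have h2 : e ∣ e + k ↔ e ∣ k := (Nat.dvd_add_right (dvd_refl e))
    by_cases hk : k = 0
    · subst hk
      simp [Nat.lt_of_lt_of_le Nat.zero_lt_one he]
    · have h3 : 0 < k := Nat.pos_of_ne_zero hk
      have h4 : e + k ≠ e := by omega
      by_cases h5 : e ∣ k
      · rw [if_pos ⟨by omega, h2.mpr h5⟩, if_pos ⟨h3, h5⟩, if_neg h4]; norm_num
      · rw [if_neg (fun h => h5 (h2.mp h.2)), if_neg (fun h => h5 h.2), if_neg h4]; norm_num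
  · rw [if_neg h1]
    have h2 : n ≠ e := by omega
    rw [if_neg h2, if_neg]
    · norm_num
    · rintro ⟨h3, h4⟩
      exact h1 (Nat.le_of_dvd h3 h4)

/-- `θ = X d/dX` on `(1 - X)^(-v)` -/
theorem nb_thUx (v : ℕ) : (PowerSeries.X : PowerSeries ℤ) *
    PowerSeries.derivative ℤ ((PowerSeries.invOneSubPow ℤ v : (PowerSeries ℤ)ˣ) : PowerSeries ℤ) =
      (v : PowerSeries ℤ) * GE 1 *
        ((PowerSeries.invOneSubPow ℤ v : (PowerSeries ℤ)ˣ) : PowerSeries ℤ) := by
  have h1 : (1 - (PowerSeries.X : PowerSeries ℤ)) *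
      ((PowerSeries.invOneSubPow ℤ 1 : (PowerSeries ℤ)ˣ) : PowerSeries ℤ) = 1 := by
    have := PowerSeries.one_sub_pow_mul_invOneSubPow_val_add_eq_invOneSubPow_val ℤ 0 1
    simpa [PowerSeries.invOneSubPow_zero] using this
  have hG := nb_GE 1 le_rfl
  rw [pow_one] at hG
  have h2 : (PowerSeries.X : PowerSeries ℤ) *
      PowerSeries.derivative ℤ ((PowerSeries.invOneSubPow ℤ 1 : (PowerSeries ℤ)ˣ) : PowerSeries ℤ) =
      GE 1 * ((PowerSeries.invOneSubPow ℤ 1 : (PowerSeries ℤ)ˣ) : PowerSeries ℤ) := by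
    set U := ((PowerSeries.invOneSubPow ℤ 1 : (PowerSeries ℤ)ˣ) : PowerSeries ℤ) with hU
    have h3 := congrArg (PowerSeries.derivative ℤ) h1
    rw [Derivation.leibniz, map_sub, Derivation.map_one_eq_zero, PowerSeries.derivative_X,
      smul_eq_mul, smul_eq_mul] at h3
    set U' := PowerSeries.derivative ℤ U
    linear_combination (-(PowerSeries.X : PowerSeries ℤ) * U' + U * GE 1) * h1 +
      (PowerSeries.X : PowerSeries ℤ) * U * h3 - U ^ 2 * hG
  induction v with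
  | zero => simp [PowerSeries.invOneSubPow_zero]
  | succ v ih =>
    rw [PowerSeries.invOneSubPow_add, Units.val_mul, Derivation.leibniz, smul_eq_mul, smul_eq_mul]
    push_cast
    linear_combination ((PowerSeries.invOneSubPow ℤ v : (PowerSeries ℤ)ˣ) : PowerSeries ℤ) * h2 +
      ((PowerSeries.invOneSubPow ℤ 1 : (PowerSeries ℤ)ˣ) : PowerSeries ℤ) * ih

theorem nb_thXx (e : ℕ) (he : 1 ≤ e) : (PowerSeries.X : PowerSeries ℤ) *
    PowerSeries.derivative ℤ (1 - (PowerSeries.X : PowerSeries ℤ) ^ e) =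
      -((e : PowerSeries ℤ) * GE e * (1 - (PowerSeries.X : PowerSeries ℤ) ^ e)) := by
  have hG := nb_GE e he
  obtain ⟨k, rfl⟩ := Nat.exists_eq_add_of_le' he
  rw [map_sub, Derivation.map_one_eq_zero, Derivation.leibniz_pow, PowerSeries.derivative_X]
  simp only [smul_eq_mul, nsmul_eq_mul, Nat.add_sub_cancel]
  push_cast at hG ⊢
  linear_combination ((k : PowerSeries ℤ) + 1) * hG

theorem nb_thPx {p : ℕ} (d : Fin p → ℕ) (hd : ∀ i, 1 ≤ d i) (B : Finset (Fin p)) :
    (PowerSeries.X : PowerSeries ℤ) *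
    PowerSeries.derivative ℤ (∏ i ∈ B, (1 - (PowerSeries.X : PowerSeries ℤ) ^ (d i))) =
      -((∑ i ∈ B, (d i : PowerSeries ℤ) * GE (d i)) *
        ∏ i ∈ B, (1 - (PowerSeries.X : PowerSeries ℤ) ^ (d i))) := by
  classical
  induction B using Finset.induction_on with
  | empty => simp
  | insert a s ha ih =>
    rw [Finset.prod_insert ha, Finset.sum_insert ha, Derivation.leibniz, smul_eq_mul, smul_eq_mul]
    have := nb_thXx (d a) (hd a)
    linear_combination (1 - (PowerSeries.X : PowerSeries ℤ) ^ (d a)) * ih +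
      (∏ i ∈ s, (1 - (PowerSeries.X : PowerSeries ℤ) ^ (d i))) * this

theorem nb_coeffx (f : PowerSeries ℤ) (m : ℕ) : (m : ℤ) * PowerSeries.coeff m f =
    PowerSeries.coeff m ((PowerSeries.X : PowerSeries ℤ) * PowerSeries.derivative ℤ f) := by
  cases m with
  | zero => simp
  | succ m =>
    rw [mul_comm (PowerSeries.X : PowerSeries ℤ), PowerSeries.coeff_succ_mul_X,
      PowerSeries.coeff_derivative]
    push_cast
    ring

theorem nb_theta {p : ℕ} (d : Fin p → ℕ) (hd : ∀ i, 1 ≤ d i) (v : ℕ) (B : Finset (Fin p))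
    (m : ℕ) :
    (m : ℤ) * PowerSeries.coeff m (HS d v B)
      = v * PowerSeries.coeff m (GE 1 * HS d v B)
        - ∑ i ∈ B, (d i : ℤ) * PowerSeries.coeff m (GE (d i) * HS d v B) := by
  have h1 := nb_thUx v
  have h2 := nb_thPx d hd B
  have h3 : (PowerSeries.X : PowerSeries ℤ) * PowerSeries.derivative ℤ (HS d v B) =
      (v : PowerSeries ℤ) * (GE 1 * HS d v B) -
        ∑ i ∈ B, (d i : PowerSeries ℤ) * (GE (d i) * HS d v B) := by
    unfold HS
    rw [Derivation.leibniz, smul_eq_mul, smul_eq_mul]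
    simp only [← mul_assoc]
    simp only [← Finset.sum_mul]
    linear_combination (∏ i ∈ B, (1 - (PowerSeries.X : PowerSeries ℤ) ^ (d i))) * h1 +
      ((PowerSeries.invOneSubPow ℤ v : (PowerSeries ℤ)ˣ) : PowerSeries ℤ) * h2
  rw [nb_coeffx, h3, map_sub, map_sum]
  have h4 : ∀ (n : ℕ) (f : PowerSeries ℤ), PowerSeries.coeff m ((n : PowerSeries ℤ) * f) =
      (n : ℤ) * PowerSeries.coeff m f := by
    intro n f
    rw [← nsmul_eq_mul, map_nsmul, nsmul_eq_mul]
  simp only [h4]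

/-- nonnegative coefficients -/
def nb_Nx (f : PowerSeries ℤ) : Prop := ∀ n, 0 ≤ PowerSeries.coeff n f

theorem nb_Nmulx {f g : PowerSeries ℤ} (hf : nb_Nx f) (hg : nb_Nx g) : nb_Nx (f * g) := by
  intro n
  rw [PowerSeries.coeff_mul]
  exact Finset.sum_nonneg fun x _ => mul_nonneg (hf _) (hg _)

theorem nb_NUx (v : ℕ) :
    nb_Nx ((PowerSeries.invOneSubPow ℤ v : (PowerSeries ℤ)ˣ) : PowerSeries ℤ) := by
  intro n
  cases v with
  | zero =>
    rw [PowerSeries.invOneSubPow_zero, Units.val_one, PowerSeries.coeff_one]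
    split_ifs <;> norm_num
  | succ v =>
    rw [PowerSeries.invOneSubPow_val_succ_eq_mk_add_choose, PowerSeries.coeff_mk]
    positivity

theorem nb_nonneg {p : ℕ} (d : Fin p → ℕ) (hd : ∀ i, 1 ≤ d i) (v : ℕ) (B : Finset (Fin p))
    (hB : ∑ i ∈ B, d i ≤ v) (m : ℕ) : 0 ≤ NN d v B m := by
  have hc : B.card ≤ v := by
    refine le_trans ?_ hB
    rw [Finset.card_eq_sum_ones]
    exact Finset.sum_le_sum fun i _ => hd i
  have h1 : HS d v B = (∏ i ∈ B, ∑ k ∈ Finset.range (d i), (PowerSeries.X : PowerSeries ℤ) ^ k) *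
      ((PowerSeries.invOneSubPow ℤ (v - B.card) : (PowerSeries ℤ)ˣ) : PowerSeries ℤ) := by
    unfold HS
    have e1 : ∏ i ∈ B, (1 - (PowerSeries.X : PowerSeries ℤ) ^ (d i)) =
        (∏ i ∈ B, ∑ k ∈ Finset.range (d i), (PowerSeries.X : PowerSeries ℤ) ^ k) *
          (1 - (PowerSeries.X : PowerSeries ℤ)) ^ B.card := by
      rw [← Finset.prod_const, ← Finset.prod_mul_distrib]
      refine Finset.prod_congr rfl fun i _ => ?_
      rw [mul_comm, mul_neg_geom_sum]
    have e2 := PowerSeries.one_sub_pow_mul_invOneSubPow_val_add_eq_invOneSubPow_val ℤ (v - B.card)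
      B.card
    rw [Nat.sub_add_cancel hc] at e2
    rw [e1, mul_assoc, e2]
  unfold NN
  rw [h1]
  refine nb_Nmulx ?_ (nb_NUx _) m
  clear h1 hc hB
  classical
  induction B using Finset.induction_on with
  | empty =>
    intro n
    rw [Finset.prod_empty, PowerSeries.coeff_one]
    split_ifs <;> norm_num
  | insert a s ha ih =>
    rw [Finset.prod_insert ha]
    refine nb_Nmulx ?_ ih
    intro n
    rw [map_sum]
    refine Finset.sum_nonneg fun k _ => ?_
    rw [PowerSeries.coeff_X_pow]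
    split_ifs <;> norm_num

theorem nb_pos {p : ℕ} (d : Fin p → ℕ) (v : ℕ) (hv : 1 ≤ v) (m : ℕ) : 0 < NN d v ∅ m := by
  unfold NN HS
  obtain ⟨k, rfl⟩ := Nat.exists_eq_add_of_le' hv
  rw [Finset.prod_empty, one_mul, PowerSeries.invOneSubPow_val_succ_eq_mk_add_choose,
    PowerSeries.coeff_mk]
  exact_mod_cast Nat.choose_pos (by omega)

theorem nb_cntx (e : ℕ) (he : 1 ≤ e) (m : ℕ) :
    PowerSeries.coeff m (GE e *
      ((PowerSeries.invOneSubPow ℤ 1 : (PowerSeries ℤ)ˣ) : PowerSeries ℤ)) = ((m / e : ℕ) : ℤ) := by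
  rw [nb_sumx]
  have h1 : ∀ k, PowerSeries.coeff k
      ((PowerSeries.invOneSubPow ℤ 1 : (PowerSeries ℤ)ˣ) : PowerSeries ℤ) = 1 := by
    intro k
    have := PowerSeries.invOneSubPow_val_succ_eq_mk_add_choose ℤ 0
    rw [zero_add] at this
    rw [this, PowerSeries.coeff_mk]
    simp
  simp only [h1, Finset.sum_const, nsmul_eq_mul, mul_one]
  rw [← Nat.Ioc_filter_dvd_card_eq_div]
  congr 2
  ext i
  simp only [Finset.mem_filter, Finset.mem_range, Finset.mem_Ioc]
  constructor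
  · rintro ⟨h2, h3, h4⟩; exact ⟨⟨h3, by omega⟩, h4⟩
  · rintro ⟨⟨h2, h3⟩, h4⟩; exact ⟨by omega, h2, h4⟩

/-- monotonicity in the form used in the facet step -/
theorem nb_mono {p : ℕ} (d : Fin p → ℕ) (v : ℕ) (hv : 1 ≤ v) (e : ℕ) (he : 1 ≤ e) (m : ℕ) :
    (e : ℤ) * HSum d v ∅ e m ≤ HSum d v ∅ 1 m := by
  have e1 : ∀ e' : ℕ, 1 ≤ e' → HSum d v ∅ e' m = PowerSeries.coeff m (GE e' * HS d v ∅) := by
    intro e' he'
    rw [nb_coeff e' he']
    rfl
  rw [e1 e he, e1 1 le_rfl]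
  obtain ⟨k, rfl⟩ := Nat.exists_eq_add_of_le' hv
  have e2 : HS d (k + 1) ∅ = ((PowerSeries.invOneSubPow ℤ 1 : (PowerSeries ℤ)ˣ) : PowerSeries ℤ) *
      ((PowerSeries.invOneSubPow ℤ k : (PowerSeries ℤ)ˣ) : PowerSeries ℤ) := by
    unfold HS
    rw [Finset.prod_empty, one_mul, PowerSeries.invOneSubPow_add, Units.val_mul, mul_comm]
  set U := ((PowerSeries.invOneSubPow ℤ 1 : (PowerSeries ℤ)ˣ) : PowerSeries ℤ) with hU
  have e3 : nb_Nx (GE 1 * U - (e : PowerSeries ℤ) * (GE e * U)) := by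
    intro n
    rw [map_sub, ← nsmul_eq_mul, map_nsmul, nsmul_eq_mul, nb_cntx 1 le_rfl, nb_cntx e he,
      Nat.div_one]
    have : e * (n / e) ≤ n := Nat.mul_div_le n e
    have : ((e * (n / e) : ℕ) : ℤ) ≤ (n : ℤ) := by exact_mod_cast this
    push_cast at this ⊢
    linarith
  have e4 := nb_Nmulx e3 (nb_NUx k) m
  have e5 : (GE 1 * U - (e : PowerSeries ℤ) * (GE e * U)) *
      ((PowerSeries.invOneSubPow ℤ k : (PowerSeries ℤ)ˣ) : PowerSeries ℤ) =
      GE 1 * HS d (k + 1) ∅ - (e : PowerSeries ℤ) * (GE e * HS d (k + 1) ∅) := by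
    rw [e2]; ring
  rw [e5, map_sub, ← nsmul_eq_mul, map_nsmul, nsmul_eq_mul] at e4
  linarith


end Pool.Agent.KSS
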