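import Pool.Agent.Lib_helper2.KSSP.NA
import Pool.Agent.Lib_helper2.KSSP.NB

/-!
# KSS, numerical part (helper2): consequences for Hilbert functions
-/

namespace Pool.Agent.KSS

open MvPolynomial

theorem nc_HSum {p : ℕ} (d : Fin p → ℕ) (v : ℕ) (B : Finset (Fin p)) (e m : ℕ) (he : 1 ≤ e) :
    HSum d v B e m = PowerSeries.coeff m (GE e * HS d v B) := by
  rw [nb_coeff e he]; rfl

theorem nc_inv (v e : ℕ) (h : e ≤ v) :
    ((PowerSeries.invOneSubPow ℤ v : (PowerSeries ℤ)ˣ) : PowerSeries ℤ)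
      = (PowerSeries.invOneSubPow ℤ e : (PowerSeries ℤ)ˣ)
        * (PowerSeries.invOneSubPow ℤ (v - e) : (PowerSeries ℤ)ˣ) := by
  obtain ⟨w, rfl⟩ := Nat.exists_eq_add_of_le h
  rw [Nat.add_sub_cancel_left, PowerSeries.invOneSubPow_add, Units.val_mul]

theorem nc_HS {p : ℕ} (d : Fin p → ℕ) (v e : ℕ) (h : e ≤ v) (B : Finset (Fin p)) :
    HS d v B = (PowerSeries.invOneSubPow ℤ e : (PowerSeries ℤ)ˣ) * HS d (v - e) B := by
  unfold HS
  rw [nc_inv v e h]
  ring

theorem nc_HS_insert {p : ℕ} (d : Fin p → ℕ) (v : ℕ) (B : Finset (Fin p)) (j : Fin p)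
    (hj : j ∉ B) :
    HS d v (insert j B) = (1 - (PowerSeries.X : PowerSeries ℤ) ^ (d j)) * HS d v B := by
  unfold HS
  rw [Finset.prod_insert hj]
  ring

/-! ### the weights -/

theorem nc_min0 (d : ℕ) (hd : 1 ≤ d) :
    PW d (fun a => if mina a = 0 then 1 else 0)
      = (1 - (PowerSeries.X : PowerSeries ℤ) ^ d)
        * (PowerSeries.invOneSubPow ℤ d : (PowerSeries ℤ)ˣ) := by
  have h := na_shift d hd (fun _ => 1)
  rw [na_one] at h
  rw [sub_mul, one_mul]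
  exact eq_sub_of_add_eq h.symm

theorem nc_cancel (e : ℕ) (he : 1 ≤ e) {F G : PowerSeries ℤ}
    (h : (1 - (PowerSeries.X : PowerSeries ℤ) ^ e) * F
      = (1 - (PowerSeries.X : PowerSeries ℤ) ^ e) * G) : F = G := by
  refine mul_left_cancel₀ ?_ h
  intro h0
  have := congrArg (PowerSeries.constantCoeff (R := ℤ)) h0
  rw [map_sub, map_one, map_pow, PowerSeries.constantCoeff_X, zero_pow (by omega), map_zero] at this
  norm_num at this

theorem nc_PW_add (d : ℕ) (w w' : (Fin d → ℕ) → ℤ) :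
    PW d (fun a => w a + w' a) = PW d w + PW d w' := by
  ext n
  simp only [PW, PowerSeries.coeff_mk, map_add]
  exact Finset.sum_add_distrib

theorem nc_al (d : ℕ) (l : Fin d) :
    PW d (fun a => (a l : ℤ))
      = GE 1 * (PowerSeries.invOneSubPow ℤ d : (PowerSeries ℤ)ˣ) := by
  have h := na_shiftl d l (fun a => (a l : ℤ))
  have h1 : (fun a : Fin d → ℕ => if a l = 0 then (a l : ℤ) else 0) = fun _ => 0 := by
    funext a
    split_ifs with h
    · rw [h]; rfl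
    · rfl
  have h2 : (fun a : Fin d → ℕ => (((a + Pi.single l 1 : Fin d → ℕ) l : ℕ) : ℤ))
      = fun a => (a l : ℤ) + 1 := by
    funext a
    simp
  have h3 : PW d (fun _ => 0) = 0 := by
    ext n
    simp [PW]
  rw [h1, h2, h3, zero_add, nc_PW_add d (fun a => (a l : ℤ)) (fun _ => 1), na_one] at h
  apply nc_cancel 1 le_rfl
  have hG := nb_GE 1 le_rfl
  rw [← mul_assoc, hG, pow_one, sub_mul, one_mul]
  linear_combination h

theorem nc_al0 (d : ℕ) (hd : 1 ≤ d) (l : Fin d) :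
    PW d (fun a => if mina a = 0 then (a l : ℤ) else 0)
      = (1 - (PowerSeries.X : PowerSeries ℤ) ^ d) * GE 1
          * (PowerSeries.invOneSubPow ℤ d : (PowerSeries ℤ)ˣ)
        - (PowerSeries.X : PowerSeries ℤ) ^ d
          * (PowerSeries.invOneSubPow ℤ d : (PowerSeries ℤ)ˣ) := by
  have h := na_shift d hd (fun a => (a l : ℤ))
  have h2 : (fun a : Fin d → ℕ => ((((fun i => a i + 1) : Fin d → ℕ) l : ℕ) : ℤ))
      = fun a => (a l : ℤ) + 1 := by
    funext a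
    simp
  rw [h2, nc_PW_add d (fun a => (a l : ℤ)) (fun _ => 1), na_one, nc_al] at h
  linear_combination -h

theorem nc_mina_succ (d : ℕ) (hd : 1 ≤ d) (a : Fin d → ℕ) :
    mina (fun i => a i + 1) = mina a + 1 := by
  have : Nonempty (Fin d) := ⟨⟨0, hd⟩⟩
  unfold mina
  apply le_antisymm
  · obtain ⟨i, hi⟩ := exists_eq_ciInf_of_finite (f := a)
    rw [← hi]
    exact ciInf_le (OrderBot.bddBelow _) i
  · apply le_ciInf
    intro i
    exact Nat.succ_le_succ (ciInf_le (OrderBot.bddBelow (Set.range a)) i)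

theorem nc_mina (d : ℕ) (hd : 1 ≤ d) :
    PW d (fun a => (mina a : ℤ))
      = GE d * (PowerSeries.invOneSubPow ℤ d : (PowerSeries ℤ)ˣ) := by
  have h := na_shift d hd (fun a => (mina a : ℤ))
  have h1 : (fun a : Fin d → ℕ => if mina a = 0 then (mina a : ℤ) else 0) = fun _ => 0 := by
    funext a
    split_ifs with h
    · rw [h]; rfl
    · rfl
  have h2 : (fun a : Fin d → ℕ => ((mina (fun i => a i + 1) : ℕ) : ℤ))
      = fun a => (mina a : ℤ) + 1 := by
    funext a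
    rw [nc_mina_succ d hd]
    push_cast
    rfl
  have h3 : PW d (fun _ => 0) = 0 := by
    ext n
    simp [PW]
  rw [h1, h2, h3, zero_add, nc_PW_add d (fun a => (mina a : ℤ)) (fun _ => 1), na_one] at h
  apply nc_cancel d hd
  have hG := nb_GE d hd
  rw [← mul_assoc, hG, sub_mul, one_mul]
  linear_combination h

/-! ### identities for the numbers -/

section

variable {p : ℕ} (d : Fin p → ℕ) (hd : ∀ i, 1 ≤ d i) (v : ℕ) (B : Finset (Fin p)) (j : Fin p)
  (hv : d j ≤ v) (m : ℕ)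

include hd hv

theorem nc_N1 (hj : j ∉ B) : NN d v (insert j B) m
    = ∑ a ∈ Exps (d j) m, if mina a = 0 then NN d (v - d j) B (m - ∑ i, a i) else 0 := by
  have h : HS d v (insert j B)
      = PW (d j) (fun a => if mina a = 0 then 1 else 0) * HS d (v - d j) B := by
    rw [nc_HS_insert d v B j hj, nc_HS d v (d j) hv B, nc_min0 (d j) (hd j)]
    ring
  unfold NN
  rw [h, na_coeff]
  refine Finset.sum_congr rfl fun a _ => ?_
  split_ifs <;> simp

omit hd in
theorem nc_N2 : NN d v B m = ∑ a ∈ Exps (d j) m, NN d (v - d j) B (m - ∑ i, a i) := by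
  have h : HS d v B = PW (d j) (fun _ => 1) * HS d (v - d j) B := by
    rw [nc_HS d v (d j) hv B, na_one]
  unfold NN
  rw [h, na_coeff]
  refine Finset.sum_congr rfl fun a _ => ?_
  simp

theorem nc_N3 (hj : j ∉ B) (l : Fin (d j)) :
    (∑ a ∈ Exps (d j) m, if mina a = 0 then (a l : ℤ) * NN d (v - d j) B (m - ∑ i, a i) else 0)
      + HSum d v (insert j B) (d j) m = HSum d v (insert j B) 1 m := by
  rw [nc_HSum _ _ _ _ _ (hd j), nc_HSum _ _ _ _ _ le_rfl]
  have h : GE 1 * HS d v (insert j B)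
      = PW (d j) (fun a => if mina a = 0 then (a l : ℤ) else 0) * HS d (v - d j) B
        + GE (d j) * HS d v (insert j B) := by
    rw [nc_HS_insert d v B j hj, nc_HS d v (d j) hv B, nc_al0 (d j) (hd j) l]
    have hG := nb_GE (d j) (hd j)
    linear_combination (-((PowerSeries.invOneSubPow ℤ (d j) : (PowerSeries ℤ)ˣ) : PowerSeries ℤ)
      * HS d (v - d j) B) * hG
  rw [h, map_add, na_coeff]
  congr 1
  refine Finset.sum_congr rfl fun a _ => ?_
  unfold NN
  split_ifs <;> simp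

omit hd in
theorem nc_N4 (l : Fin (d j)) :
    ∑ a ∈ Exps (d j) m, (a l : ℤ) * NN d (v - d j) B (m - ∑ i, a i) = HSum d v B 1 m := by
  rw [nc_HSum _ _ _ _ _ le_rfl]
  have h : GE 1 * HS d v B = PW (d j) (fun a => (a l : ℤ)) * HS d (v - d j) B := by
    rw [nc_HS d v (d j) hv B, nc_al (d j) l]
    ring
  rw [h, na_coeff]
  rfl

theorem nc_N5 :
    ∑ a ∈ Exps (d j) m, (mina a : ℤ) * NN d (v - d j) B (m - ∑ i, a i) = HSum d v B (d j) m := by
  rw [nc_HSum _ _ _ _ _ (hd j)]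
  have h : GE (d j) * HS d v B = PW (d j) (fun a => (mina a : ℤ)) * HS d (v - d j) B := by
    rw [nc_HS d v (d j) hv B, nc_mina (d j) (hd j)]
    ring
  rw [h, na_coeff]
  rfl

theorem nc_N8a (hj : j ∉ B) (e : ℕ) (he : 1 ≤ e) : HSum d v (insert j B) e m
    = ∑ a ∈ Exps (d j) m, if mina a = 0 then HSum d (v - d j) B e (m - ∑ i, a i) else 0 := by
  rw [nc_HSum _ _ _ _ _ he]
  have h : GE e * HS d v (insert j B)
      = PW (d j) (fun a => if mina a = 0 then 1 else 0) * (GE e * HS d (v - d j) B) := by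
    rw [nc_HS_insert d v B j hj, nc_HS d v (d j) hv B, nc_min0 (d j) (hd j)]
    ring
  rw [h, na_coeff]
  refine Finset.sum_congr rfl fun a _ => ?_
  rw [nc_HSum _ _ _ _ _ he]
  split_ifs <;> simp

omit hd in
theorem nc_N8b (e : ℕ) (he : 1 ≤ e) : HSum d v B e m
    = ∑ a ∈ Exps (d j) m, HSum d (v - d j) B e (m - ∑ i, a i) := by
  rw [nc_HSum _ _ _ _ _ he]
  have h : GE e * HS d v B = PW (d j) (fun _ => 1) * (GE e * HS d (v - d j) B) := by
    rw [nc_HS d v (d j) hv B, na_one]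
    ring
  rw [h, na_coeff]
  refine Finset.sum_congr rfl fun a _ => ?_
  rw [nc_HSum _ _ _ _ _ he]
  simp

end

theorem nc_HSum_nonneg {p : ℕ} (d : Fin p → ℕ) (hd : ∀ i, 1 ≤ d i) (v : ℕ) (B : Finset (Fin p))
    (hB : ∑ i ∈ B, d i ≤ v) (e m : ℕ) : 0 ≤ HSum d v B e m := by
  unfold HSum
  refine Finset.sum_nonneg fun b _ => ?_
  split_ifs
  · exact nb_nonneg d hd v B hB _
  · exact le_rfl

/-- `∑_{b ≥ 1} H(m - b e) ≤ ∑_{b ≥ 1} H(m - b)` -/
theorem nc_HSum_le {p : ℕ} (d : Fin p → ℕ) (hd : ∀ i, 1 ≤ d i) (v : ℕ) (B : Finset (Fin p))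
    (hB : ∑ i ∈ B, d i ≤ v) (e m : ℕ) (he : 1 ≤ e) : HSum d v B e m ≤ HSum d v B 1 m := by
  unfold HSum
  have h1 : ∑ b ∈ Finset.Icc 1 m, (if b * e ≤ m then NN d v B (m - b * e) else 0)
      = ∑ b ∈ (Finset.Icc 1 m).filter (fun b => b * e ≤ m), NN d v B (m - b * e) := by
    rw [Finset.sum_filter]
  have h2 : ∑ b ∈ Finset.Icc 1 m, (if b * 1 ≤ m then NN d v B (m - b * 1) else 0)
      = ∑ b ∈ Finset.Icc 1 m, NN d v B (m - b) := by
    refine Finset.sum_congr rfl fun b hb => ?_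
    rw [Finset.mem_Icc] at hb
    rw [if_pos (by omega), mul_one]
  rw [h1, h2]
  have h3 : ∑ b ∈ (Finset.Icc 1 m).filter (fun b => b * e ≤ m), NN d v B (m - b * e)
      = ∑ b ∈ ((Finset.Icc 1 m).filter (fun b => b * e ≤ m)).image (fun b => b * e),
          NN d v B (m - b) := by
    rw [Finset.sum_image]
    intro x _ y _ hxy
    exact Nat.eq_of_mul_eq_mul_right (by omega) hxy
  rw [h3]
  refine Finset.sum_le_sum_of_subset_of_nonneg ?_ fun b _ _ => nb_nonneg d hd v B hB _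
  intro b hb
  rw [Finset.mem_image] at hb
  obtain ⟨c, hc, rfl⟩ := hb
  rw [Finset.mem_filter, Finset.mem_Icc] at hc
  rw [Finset.mem_Icc]
  refine ⟨?_, hc.2⟩
  have := Nat.mul_le_mul hc.1.1 he
  omega

/-- `m H(m) ≥ r ∑_{e ≥ 1} H(m - e)` -/
theorem nc_N6 {p : ℕ} (d : Fin p → ℕ) (hd : ∀ i, 1 ≤ d i) (v : ℕ) (B : Finset (Fin p))
    (hB : ∑ i ∈ B, d i ≤ v) (m : ℕ) :
    ((v : ℤ) - ∑ i ∈ B, (d i : ℤ)) * HSum d v B 1 m ≤ m * NN d v B m := by
  have h := nb_theta d hd v B m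
  rw [← nc_HSum _ _ _ _ _ le_rfl] at h
  have h2 : ∑ i ∈ B, (d i : ℤ) * PowerSeries.coeff m (GE (d i) * HS d v B)
      ≤ ∑ i ∈ B, (d i : ℤ) * HSum d v B 1 m := by
    refine Finset.sum_le_sum fun i _ => ?_
    rw [← nc_HSum _ _ _ _ _ (hd i)]
    exact mul_le_mul_of_nonneg_left (nc_HSum_le d hd v B hB _ _ (hd i)) (by positivity)
  rw [← Finset.sum_mul] at h2
  unfold NN
  rw [h]
  linarith

theorem nc_N6eq {p : ℕ} (d : Fin p → ℕ) (hd : ∀ i, 1 ≤ d i) (v : ℕ) (m : ℕ) :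
    (v : ℤ) * HSum d v ∅ 1 m = m * NN d v ∅ m := by
  have h := nb_theta d hd v ∅ m
  rw [← nc_HSum _ _ _ _ _ le_rfl, Finset.sum_empty, sub_zero] at h
  unfold NN
  rw [h]

end Pool.Agent.KSS
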