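import Pool.Agent.Lib_helper2.KSSP.NC

/-!
# KSS (helper2): region transfer
-/

namespace Pool.Agent.KSS

open MvPolynomial

/-- the new weights on the levels -/
noncomputable def nuT (e M0 : ℕ) (P : (Fin e → ℕ) → Prop) [DecidablePred P] (ν : ℕ → ℝ)
    (m' : ℕ) : ℝ :=
  ∑ m ∈ Finset.range (M0 + 1), ∑ a ∈ Exps e m, if P a ∧ m - ∑ i, a i = m' then ν m else 0

theorem rt_nuT_nonneg (e M0 : ℕ) (P : (Fin e → ℕ) → Prop) [DecidablePred P] (ν : ℕ → ℝ)
    (hν : ∀ m, 0 ≤ ν m) (m' : ℕ) : 0 ≤ nuT e M0 P ν m' := by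
  unfold nuT
  refine Finset.sum_nonneg fun m _ => Finset.sum_nonneg fun a _ => ?_
  split_ifs
  · exact hν m
  · exact le_rfl

theorem rt_nuT_sum (e M0 : ℕ) (P : (Fin e → ℕ) → Prop) [DecidablePred P] (ν : ℕ → ℝ)
    (f : ℕ → ℝ) :
    ∑ m' ∈ Finset.range (M0 + 1), nuT e M0 P ν m' * f m'
      = ∑ m ∈ Finset.range (M0 + 1), ν m * ∑ a ∈ Exps e m,
          if P a then f (m - ∑ i, a i) else 0 := by
  unfold nuT
  simp_rw [Finset.sum_mul]
  rw [Finset.sum_comm]
  refine Finset.sum_congr rfl fun m hm => ?_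
  rw [Finset.sum_comm, Finset.mul_sum]
  refine Finset.sum_congr rfl fun a _ => ?_
  rw [Finset.mem_range] at hm
  by_cases hP : P a
  · rw [if_pos hP]
    have : ∀ m' ∈ Finset.range (M0 + 1),
        (if P a ∧ m - ∑ i, a i = m' then ν m else 0) * f m'
          = if m - ∑ i, a i = m' then ν m * f m' else 0 := by
      intro m' _
      by_cases h : m - ∑ i, a i = m'
      · rw [if_pos ⟨hP, h⟩, if_pos h]
      · rw [if_neg (fun h' => h h'.2), if_neg h, zero_mul]
    rw [Finset.sum_congr rfl this, Finset.sum_ite_eq, if_pos]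
    rw [Finset.mem_range]
    omega
  · rw [if_neg hP, mul_zero]
    refine Finset.sum_eq_zero fun m' _ => ?_
    rw [if_neg (fun h' => hP h'.1), zero_mul]

theorem rt_mem_Exps {e m : ℕ} {a : Fin e → ℕ} (ha : a ∈ Exps e m) : ∑ i, a i ≤ m := by
  unfold Exps at ha
  exact (Finset.mem_filter.mp ha).2

section

variable {p : ℕ} (d : Fin p → ℕ) (hd : ∀ i, 1 ≤ d i) (v : ℕ) (B : Finset (Fin p)) (j : Fin p)
  (hv : d j ≤ v) (m : ℕ)

include hd hv

theorem rt_N9a (hj : j ∉ B) :
    (∑ a ∈ Exps (d j) m, if mina a = 0 then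
        ((m - ∑ i, a i : ℕ) : ℤ) * NN d (v - d j) B (m - ∑ i, a i) else 0)
      = m * NN d v (insert j B) m
        - d j * (HSum d v (insert j B) 1 m - HSum d v (insert j B) (d j) m) := by
  have h1 := nc_N1 d hd v B j hv m hj
  have h3 : ∀ l : Fin (d j), (∑ a ∈ Exps (d j) m,
      if mina a = 0 then (a l : ℤ) * NN d (v - d j) B (m - ∑ i, a i) else 0)
        = HSum d v (insert j B) 1 m - HSum d v (insert j B) (d j) m := fun l =>
    eq_sub_of_add_eq (nc_N3 d hd v B j hv m hj l)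
  have h4 : ∑ l : Fin (d j), (∑ a ∈ Exps (d j) m,
      if mina a = 0 then (a l : ℤ) * NN d (v - d j) B (m - ∑ i, a i) else 0)
        = d j * (HSum d v (insert j B) 1 m - HSum d v (insert j B) (d j) m) := by
    rw [Finset.sum_congr rfl fun l _ => h3 l, Finset.sum_const, Finset.card_univ,
      Fintype.card_fin, nsmul_eq_mul]
  rw [← h4, h1, Finset.sum_comm, Finset.mul_sum, ← Finset.sum_sub_distrib]
  refine Finset.sum_congr rfl fun a ha => ?_
  by_cases h : mina a = 0
  · simp only [if_pos h]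
    rw [← Finset.sum_mul, Nat.cast_sub (rt_mem_Exps ha)]
    push_cast
    ring
  · simp only [if_neg h]
    simp

omit hd in
theorem rt_N9b :
    (∑ a ∈ Exps (d j) m, ((m - ∑ i, a i : ℕ) : ℤ) * NN d (v - d j) B (m - ∑ i, a i))
      = m * NN d v B m - d j * HSum d v B 1 m := by
  have h1 := nc_N2 d v B j hv m
  have h4 : ∑ l : Fin (d j), (∑ a ∈ Exps (d j) m, (a l : ℤ) * NN d (v - d j) B (m - ∑ i, a i))
        = d j * HSum d v B 1 m := by
    rw [Finset.sum_congr rfl fun l _ => nc_N4 d v B j hv m l, Finset.sum_const, Finset.card_univ,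
      Fintype.card_fin, nsmul_eq_mul]
  rw [← h4, h1, Finset.sum_comm, Finset.mul_sum, ← Finset.sum_sub_distrib]
  refine Finset.sum_congr rfl fun a ha => ?_
  rw [← Finset.sum_mul, Nat.cast_sub (rt_mem_Exps ha)]
  push_cast
  ring

end

/-- the coefficient of the new boundary component -/
noncomputable def kap {p : ℕ} (d : Fin p → ℕ) (v : ℕ) (C : Finset (Fin p)) (j : Fin p) (M0 : ℕ)
    (ν : ℕ → ℝ) : ℝ :=
  ∑ m ∈ Finset.range (M0 + 1), ν m * ((HSum d v C 1 m : ℝ) - (HSum d v C (d j) m : ℝ))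

section

variable {p : ℕ} (d : Fin p → ℕ) (hd : ∀ i, 1 ≤ d i) (v : ℕ) (B : Finset (Fin p)) (j : Fin p)
  (M0 : ℕ) (c : Fin p → ℝ) (ν : ℕ → ℝ)

include hd

theorem rt_kap_nonneg (C : Finset (Fin p)) (hC : ∑ i ∈ C, d i ≤ v) (hν : ∀ m, 0 ≤ ν m) :
    0 ≤ kap d v C j M0 ν := by
  unfold kap
  refine Finset.sum_nonneg fun m _ => mul_nonneg (hν m) ?_
  have := nc_HSum_le d hd v C hC (d j) m (hd j)
  have h2 : (HSum d v C (d j) m : ℝ) ≤ (HSum d v C 1 m : ℝ) := by exact_mod_cast this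
  linarith

/-- `∑ ν(m) ∑_{e ≥ 1} H(m-e) ≤ 1` on the region -/
theorem rt_sum_le_one (C : Finset (Fin p)) (hC : ∑ i ∈ C, d i < v) (hR : Reg d v C M0 c ν) :
    ∑ m ∈ Finset.range (M0 + 1), ν m * (HSum d v C 1 m : ℝ) ≤ 1 := by
  obtain ⟨hc, hν, h1, h2⟩ := hR
  have hr : (0 : ℝ) < (v : ℝ) - ∑ i ∈ C, (d i : ℝ) := by
    have : ((∑ i ∈ C, d i : ℕ) : ℝ) < (v : ℝ) := by exact_mod_cast hC
    push_cast at this
    linarith
  have h3 : ∀ m, ((v : ℝ) - ∑ i ∈ C, (d i : ℝ)) * (HSum d v C 1 m : ℝ)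
      ≤ m * (NN d v C m : ℝ) := by
    intro m
    have := nc_N6 d hd v C hC.le m
    have h4 : ((((v : ℤ) - ∑ i ∈ C, (d i : ℤ)) * HSum d v C 1 m : ℤ) : ℝ)
        ≤ ((m * NN d v C m : ℤ) : ℝ) := by exact_mod_cast this
    push_cast at h4
    exact h4
  have h5 : ((v : ℝ) - ∑ i ∈ C, (d i : ℝ)) *
      ∑ m ∈ Finset.range (M0 + 1), ν m * (HSum d v C 1 m : ℝ)
        ≤ ∑ m ∈ Finset.range (M0 + 1), ν m * (m * (NN d v C m : ℝ)) := by
    rw [Finset.mul_sum]
    refine Finset.sum_le_sum fun m _ => ?_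
    have := mul_le_mul_of_nonneg_left (h3 m) (hν m)
    linarith
  have h6 : 0 ≤ ∑ i ∈ Cᶜ, c i * (d i : ℝ) :=
    Finset.sum_nonneg fun i _ => mul_nonneg (hc i) (Nat.cast_nonneg _)
  have h7 : ((v : ℝ) - ∑ i ∈ C, (d i : ℝ)) *
      ∑ m ∈ Finset.range (M0 + 1), ν m * (HSum d v C 1 m : ℝ)
        ≤ ((v : ℝ) - ∑ i ∈ C, (d i : ℝ)) * 1 := by linarith
  exact le_of_mul_le_mul_left h7 hr

theorem rt_kap_le_one (C : Finset (Fin p)) (hC : ∑ i ∈ C, d i < v) (hR : Reg d v C M0 c ν) :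
    kap d v C j M0 ν ≤ 1 := by
  have h1 := rt_sum_le_one d hd v M0 c ν C hC hR
  have h2 : 0 ≤ ∑ m ∈ Finset.range (M0 + 1), ν m * (HSum d v C (d j) m : ℝ) :=
    Finset.sum_nonneg fun m _ => mul_nonneg (hR.2.1 m)
      (by exact_mod_cast nc_HSum_nonneg d hd v C hC.le _ _)
  unfold kap
  simp_rw [mul_sub]
  rw [Finset.sum_sub_distrib]
  linarith

/-- REGION TRANSFER for one equation -/
theorem rt_T (hj : j ∉ B) (hv : ∑ i ∈ insert j B, d i < v)
    (hR : Reg d v (insert j B) M0 c ν) :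
    Reg d (v - d j) B M0 (Function.update c j (kap d v (insert j B) j M0 ν))
      (nuT (d j) M0 (fun a => mina a = 0) ν) := by
  have hdj : d j ≤ v := by
    rw [Finset.sum_insert hj] at hv
    omega
  have hR' := hR
  obtain ⟨hc, hν, h1, h2⟩ := hR
  have hk0 := rt_kap_nonneg d hd v j M0 ν (insert j B) hv.le hν
  have hcomp : Bᶜ = insert j (insert j B)ᶜ := by
    ext i
    simp only [Finset.mem_compl, Finset.mem_insert]
    by_cases h : i = j
    · subst h
      simp [hj]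
    · simp [h]
  have hjc : j ∉ (insert j B)ᶜ := by simp
  have hne : ∀ i ∈ (insert j B)ᶜ, i ≠ j := by
    intro i hi h
    subst h
    exact hjc hi
  refine ⟨?_, rt_nuT_nonneg _ _ _ _ hν, ?_, ?_⟩
  · intro i
    by_cases h : i = j
    · subst h
      rw [Function.update_self]
      exact hk0
    · rw [Function.update_of_ne h]
      exact hc i
  · rw [rt_nuT_sum (d j) M0 (fun a => mina a = 0) ν (fun m => m * (NN d (v - d j) B m : ℝ)),
      hcomp, Finset.sum_insert hjc, Function.update_self]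
    have e1 : ∑ i ∈ (insert j B)ᶜ, Function.update c j (kap d v (insert j B) j M0 ν) i * (d i : ℝ)
        = ∑ i ∈ (insert j B)ᶜ, c i * (d i : ℝ) :=
      Finset.sum_congr rfl fun i hi => by rw [Function.update_of_ne (hne i hi)]
    have e2 : ∀ m, (∑ a ∈ Exps (d j) m, if mina a = 0 then
        ((m - ∑ i, a i : ℕ) : ℝ) * (NN d (v - d j) B (m - ∑ i, a i) : ℝ) else 0)
        = m * (NN d v (insert j B) m : ℝ)
          - d j * ((HSum d v (insert j B) 1 m : ℝ) - (HSum d v (insert j B) (d j) m : ℝ)) := by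
      intro m
      have := congrArg (Int.cast : ℤ → ℝ) (rt_N9a d hd v B j hdj m hj)
      push_cast at this
      exact this
    rw [e1]
    simp only [e2]
    have e3 : ∑ m ∈ Finset.range (M0 + 1), ν m * (m * (NN d v (insert j B) m : ℝ)
          - d j * ((HSum d v (insert j B) 1 m : ℝ) - (HSum d v (insert j B) (d j) m : ℝ)))
        = ∑ m ∈ Finset.range (M0 + 1), ν m * (m * (NN d v (insert j B) m : ℝ))
          - d j * kap d v (insert j B) j M0 ν := by
      unfold kap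
      rw [Finset.mul_sum, ← Finset.sum_sub_distrib]
      refine Finset.sum_congr rfl fun m _ => ?_
      ring
    rw [e3, Nat.cast_sub hdj]
    rw [Finset.sum_insert hj] at h1
    linarith
  · intro i hi
    have e2 : ∀ e, 1 ≤ e → ∑ m' ∈ Finset.range (M0 + 1),
        nuT (d j) M0 (fun a => mina a = 0) ν m' * (HSum d (v - d j) B e m' : ℝ)
        = ∑ m ∈ Finset.range (M0 + 1), ν m * (HSum d v (insert j B) e m : ℝ) := by
      intro e he
      rw [rt_nuT_sum (d j) M0 (fun a => mina a = 0) ν (fun m => (HSum d (v - d j) B e m : ℝ))]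
      refine Finset.sum_congr rfl fun m _ => ?_
      rw [nc_N8a d hd v B j hdj m hj e he]
      push_cast
      rfl
    rw [e2 (d i) (hd i)]
    by_cases h : i = j
    · subst h
      rw [Function.update_self]
      have h3 := rt_sum_le_one d hd v M0 c ν (insert i B) hv hR'
      unfold kap
      simp_rw [mul_sub]
      rw [Finset.sum_sub_distrib]
      linarith
    · rw [Function.update_of_ne h]
      refine h2 i ?_
      rw [hcomp, Finset.mem_insert] at hi
      exact hi.resolve_left h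

/-- REGION TRANSFER on a facet -/
theorem rt_F (hv : d j < v) (hR : Reg d v ∅ M0 c ν)
    (hF : 1 ≤ c j + ∑ m ∈ Finset.range (M0 + 1), ν m * (HSum d v ∅ (d j) m : ℝ)) :
    Reg d (v - d j) ∅ M0 (Function.update c j (kap d v ∅ j M0 ν))
      (nuT (d j) M0 (fun _ => True) ν) := by
  have hR' := hR
  obtain ⟨hc, hν, h1, h2⟩ := hR
  have hk0 := rt_kap_nonneg d hd v j M0 ν ∅ (by simp) hν
  refine ⟨?_, rt_nuT_nonneg _ _ _ _ hν, ?_, ?_⟩
  · intro i
    by_cases h : i = j
    · subst h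
      rw [Function.update_self]
      exact hk0
    · rw [Function.update_of_ne h]
      exact hc i
  · rw [rt_nuT_sum (d j) M0 (fun _ => True) ν (fun m => m * (NN d (v - d j) ∅ m : ℝ))]
    simp only [if_true]
    have e1 : ∑ i ∈ (∅ : Finset (Fin p))ᶜ,
        Function.update c j (kap d v ∅ j M0 ν) i * (d i : ℝ)
        = kap d v ∅ j M0 ν * (d j : ℝ) + (∑ i ∈ (∅ : Finset (Fin p))ᶜ, c i * (d i : ℝ)
          - c j * (d j : ℝ)) := by
      rw [Finset.compl_empty, ← Finset.add_sum_erase Finset.univ _ (Finset.mem_univ j),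
        Function.update_self, ← Finset.add_sum_erase Finset.univ (fun i => c i * (d i : ℝ))
        (Finset.mem_univ j), add_sub_cancel_left]
      congr 1
      refine Finset.sum_congr rfl fun i hi => ?_
      rw [Function.update_of_ne (Finset.ne_of_mem_erase hi)]
    have e2 : ∀ m, (∑ a ∈ Exps (d j) m,
        ((m - ∑ i, a i : ℕ) : ℝ) * (NN d (v - d j) ∅ (m - ∑ i, a i) : ℝ))
        = m * (NN d v ∅ m : ℝ) - d j * (HSum d v ∅ 1 m : ℝ) := by
      intro m
      have := congrArg (Int.cast : ℤ → ℝ) (rt_N9b d v ∅ j hv.le m)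
      push_cast at this
      exact this
    rw [e1]
    simp only [e2]
    have e3 : ∑ m ∈ Finset.range (M0 + 1), ν m * (m * (NN d v ∅ m : ℝ)
          - d j * (HSum d v ∅ 1 m : ℝ))
        = ∑ m ∈ Finset.range (M0 + 1), ν m * (m * (NN d v ∅ m : ℝ))
          - d j * kap d v ∅ j M0 ν
          - d j * ∑ m ∈ Finset.range (M0 + 1), ν m * (HSum d v ∅ (d j) m : ℝ) := by
      unfold kap
      rw [Finset.mul_sum, Finset.mul_sum, ← Finset.sum_sub_distrib, ← Finset.sum_sub_distrib]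
      refine Finset.sum_congr rfl fun m _ => ?_
      ring
    rw [e3, Nat.cast_sub hv.le]
    simp only [Finset.sum_empty, sub_zero] at h1 ⊢
    have hF' : (d j : ℝ) * 1 ≤ (d j : ℝ) * (c j
        + ∑ m ∈ Finset.range (M0 + 1), ν m * (HSum d v ∅ (d j) m : ℝ)) :=
      mul_le_mul_of_nonneg_left hF (Nat.cast_nonneg _)
    linarith
  · intro i hi
    have e2 : ∀ e, 1 ≤ e → ∑ m' ∈ Finset.range (M0 + 1),
        nuT (d j) M0 (fun _ => True) ν m' * (HSum d (v - d j) ∅ e m' : ℝ)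
        = ∑ m ∈ Finset.range (M0 + 1), ν m * (HSum d v ∅ e m : ℝ) := by
      intro e he
      rw [rt_nuT_sum (d j) M0 (fun _ => True) ν (fun m => (HSum d (v - d j) ∅ e m : ℝ))]
      refine Finset.sum_congr rfl fun m _ => ?_
      rw [nc_N8b d v ∅ j hv.le m e he]
      push_cast
      simp only
    rw [e2 (d i) (hd i)]
    by_cases h : i = j
    · subst h
      rw [Function.update_self]
      have h3 := rt_sum_le_one d hd v M0 c ν ∅ (by simp; omega) hR'
      unfold kap
      simp_rw [mul_sub]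
      rw [Finset.sum_sub_distrib]
      linarith
    · rw [Function.update_of_ne h]
      exact h2 i hi

end

end Pool.Agent.KSS
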