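import Pool.Agent.Lib_helper2.KSSP.ST

/-!
# KSS (helper2): the two steps
-/

namespace Pool.Agent.KSS

open MvPolynomial

section

variable {p : ℕ} (d : Fin p → ℕ) (hd : ∀ i, 1 ≤ d i) (v : ℕ) (B : Finset (Fin p)) (j : Fin p)
  {k κ k' κ' : Type} [Field k] [Field κ] [Algebra k κ] [Field k'] [Field κ'] [Algebra k' κ']
  {L : ℕ} (x : Fin v → Fin L → κ) (x' : Fin (v - d j) → Fin L → κ')
  (e : Fin (d j) → ℕ) (m : ℕ)

/-- facet: estimate of `σ` -/
theorem sg_F (hd : ∀ i, 1 ≤ d i) (hv : d j < v) (η : ℕ)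
    (hT : ∀ l, 1 ≤ l → l ≤ L →
        Module.finrank k (Fil k x m l) ≤
          ∑ a ∈ Exps (d j) m, Module.finrank k'
            (Fil k' x' (m - ∑ i, a i) (l - (∑ i, (a i - mina a) * e i + mina a * η)))) :
    sigB k d ∅ x m ≤ (∑ a ∈ Exps (d j) m, sigB k' d ∅ x' (m - ∑ i, a i))
      + (((∑ i, e i : ℕ) : ℝ) * ((HSum d v ∅ 1 m : ℝ) - (HSum d v ∅ (d j) m : ℝ))
        + η * (HSum d v ∅ (d j) m : ℝ)) := by
  rw [← st_lin_F d v ∅ j hd hv.le m e η, ← Finset.sum_add_distrib]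
  have h1 : sigB k d ∅ x m = ∑ l ∈ Finset.Icc 1 L, (Module.finrank k (Fil k x m l) : ℝ) := by
    unfold sigB
    refine Finset.sum_congr rfl fun l _ => ?_
    ring
  have h2 : ∑ l ∈ Finset.Icc 1 L, (Module.finrank k (Fil k x m l) : ℝ)
      ≤ ∑ l ∈ Finset.Icc 1 L, ∑ a ∈ Exps (d j) m, (Module.finrank k'
            (Fil k' x' (m - ∑ i, a i) (l - (∑ i, (a i - mina a) * e i + mina a * η))) : ℝ) := by
    refine Finset.sum_le_sum fun l hl => ?_
    rw [Finset.mem_Icc] at hl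
    exact_mod_cast hT l hl.1 hl.2
  rw [h1]
  refine h2.trans ?_
  rw [Finset.sum_comm]
  refine Finset.sum_le_sum fun a _ => ?_
  have h3 := st_shift L (fun l => (Module.finrank k' (Fil k' x' (m - ∑ i, a i) l) : ℝ))
    (fun l _ => Nat.cast_nonneg _) (∑ i, (a i - mina a) * e i + mina a * η)
  rw [st_finrank_zero d x'] at h3
  have h4 : sigB k' d ∅ x' (m - ∑ i, a i)
      = ∑ l ∈ Finset.Icc 1 L, (Module.finrank k' (Fil k' x' (m - ∑ i, a i) l) : ℝ) := by
    unfold sigB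
    refine Finset.sum_congr rfl fun l _ => ?_
    ring
  rw [h4]
  linarith

/-- one equation: estimate of `σ_{B+j}` -/
theorem sg_T [CharZero k'] (hd : ∀ i, 1 ≤ d i) (hj : j ∉ B) (hv : d j < v)
    (hB : B.card ≤ v - d j)
    (G' : Fin p → MvPolynomial (Fin (v - d j)) k') (hG' : Gen d G')
    (hx' : ∀ i ∈ B, (PowerSeries.X : PowerSeries κ') ^ L ∣ ev x' (G' i))
    (hT : ∀ l, 1 ≤ l → l ≤ L →
        Module.finrank k (Fil k x m l) ≤
          ∑ a ∈ Exps (d j) m, Module.finrank k'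
            (Fil k' x' (m - ∑ i, a i) (l - (∑ i, (a i - mina a) * e i + mina a * L)))) :
    sigB k d (insert j B) x m
      ≤ (∑ a ∈ Exps (d j) m, if mina a = 0 then sigB k' d B x' (m - ∑ i, a i) else 0)
      + (((∑ i, e i : ℕ) : ℝ) * ((HSum d v (insert j B) 1 m : ℝ)
        - (HSum d v (insert j B) (d j) m : ℝ))) := by
  have hN1 : (NN d v (insert j B) m : ℝ) = ∑ a ∈ Exps (d j) m,
      if mina a = 0 then (NN d (v - d j) B (m - ∑ i, a i) : ℝ) else 0 := by
    have := congrArg (Int.cast : ℤ → ℝ) (nc_N1 d hd v B j hv.le m hj)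
    push_cast at this
    exact this
  have hN2 : (NN d v ∅ m : ℝ) = ∑ a ∈ Exps (d j) m, (NN d (v - d j) ∅ (m - ∑ i, a i) : ℝ) := by
    have := congrArg (Int.cast : ℤ → ℝ) (nc_N2 d v ∅ j hv.le m)
    push_cast at this
    exact this
  rw [← st_lin_T d v B j hd hj hv.le m e, ← Finset.sum_add_distrib]
  unfold sigB
  have h2 : ∑ l ∈ Finset.Icc 1 L, ((Module.finrank k (Fil k x m l) : ℝ) - (NN d v ∅ m : ℝ)
        + (NN d v (insert j B) m : ℝ))
      ≤ ∑ l ∈ Finset.Icc 1 L, ∑ a ∈ Exps (d j) m, ((Module.finrank k'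
            (Fil k' x' (m - ∑ i, a i) (l - (∑ i, (a i - mina a) * e i + mina a * L))) : ℝ)
          - (NN d (v - d j) ∅ (m - ∑ i, a i) : ℝ)
          + if mina a = 0 then (NN d (v - d j) B (m - ∑ i, a i) : ℝ) else 0) := by
    refine Finset.sum_le_sum fun l hl => ?_
    rw [Finset.mem_Icc] at hl
    have h3 : (Module.finrank k (Fil k x m l) : ℝ) ≤ ∑ a ∈ Exps (d j) m, (Module.finrank k'
            (Fil k' x' (m - ∑ i, a i) (l - (∑ i, (a i - mina a) * e i + mina a * L))) : ℝ) := by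
      exact_mod_cast hT l hl.1 hl.2
    rw [Finset.sum_add_distrib, Finset.sum_sub_distrib, ← hN1, ← hN2]
    linarith
  refine h2.trans ?_
  rw [Finset.sum_comm]
  refine Finset.sum_le_sum fun a _ => ?_
  by_cases h : mina a = 0
  · simp only [if_pos h]
    have h5 : ∑ i, (a i - mina a) * e i + mina a * L = ∑ i, a i * e i := by
      rw [h]
      simp
    rw [h5]
    have h3 := st_shift L (fun l => (Module.finrank k' (Fil k' x' (m - ∑ i, a i) l) : ℝ)
        - (NN d (v - d j) ∅ (m - ∑ i, a i) : ℝ) + (NN d (v - d j) B (m - ∑ i, a i) : ℝ))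
      (fun l hl => st_lower d hd (by omega) B hB G' hG' x' hx' _ l hl) (∑ i, a i * e i)
    rw [st_finrank_zero d x', sub_self, zero_add] at h3
    linarith
  · simp only [if_neg h]
    have h6 : ∀ l ∈ Finset.Icc 1 L, (Module.finrank k'
            (Fil k' x' (m - ∑ i, a i) (l - (∑ i, (a i - mina a) * e i + mina a * L))) : ℝ)
          - (NN d (v - d j) ∅ (m - ∑ i, a i) : ℝ) + 0 = 0 := by
      intro l hl
      rw [Finset.mem_Icc] at hl
      have h7 : L ≤ mina a * L := Nat.le_mul_of_pos_left L (Nat.pos_of_ne_zero h)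
      have h8 : l - (∑ i, (a i - mina a) * e i + mina a * L) = 0 := by omega
      rw [h8, st_finrank_zero d x']
      ring
    rw [Finset.sum_congr rfl h6]
    simp

end

theorem sg_dvd_iff {κ : Type} [Field κ] {n : ℕ} {f : PowerSeries κ} :
    (PowerSeries.X : PowerSeries κ) ^ n ∣ f ↔ (n : ℕ∞) ≤ f.order := by
  rw [PowerSeries.X_pow_dvd_iff]
  constructor
  · intro h
    exact PowerSeries.nat_le_order f n h
  · intro h m hm
    exact PowerSeries.coeff_of_lt_order m (lt_of_lt_of_le (by exact_mod_cast hm) h)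

/-- STEP FOR ONE EQUATION -/
theorem sg_step_T {p : ℕ} (d : Fin p → ℕ) (hd : ∀ i, 1 ≤ d i) (v : ℕ) (B : Finset (Fin p))
    (j : Fin p) (hj : j ∉ B) (hv : ∑ i ∈ insert j B, d i < v) (M0 : ℕ) (c : Fin p → ℝ)
    (ν : ℕ → ℝ) (hR : Reg d v (insert j B) M0 c ν)
    (ih : SS d (v - d j) B M0 (Function.update c j (kap d v (insert j B) j M0 ν))
      (nuT (d j) M0 (fun a => mina a = 0) ν)) :
    SS d v (insert j B) M0 c ν := by
  intro k _ _ G hG κ _ _ L x hx
  have hv' : d j + ∑ i ∈ B, d i < v := by rwa [Finset.sum_insert hj] at hv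
  have hdj : d j < v := by omega
  have hcard : B.card ≤ ∑ i ∈ B, d i := by
    rw [Finset.card_eq_sum_ones]
    exact Finset.sum_le_sum fun i _ => hd i
  obtain ⟨k', _, _, G', κ', _, _, x', e, η, hG', -, hη, hord, hordj, hordj', htau, hT⟩ :=
    torus_lemma d hd v j hdj M0 k G hG κ L x
  have hLj : ordL L (ev x (G j)) = L := by
    have h := hx j (Finset.mem_insert_self j B)
    unfold ordL
    rw [min_eq_left]
    · rfl
    · exact sg_dvd_iff.mp h
  have hηL : η = L := le_antisymm hη (hLj ▸ hordj)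
  subst hηL
  have hx' : ∀ i ∈ B, (PowerSeries.X : PowerSeries κ') ^ η ∣ ev x' (G' i) := by
    intro i hi
    have hne : i ≠ j := fun h => hj (h ▸ hi)
    have h1 : ordL η (ev x (G i)) = η := by
      have h := hx i (Finset.mem_insert_of_mem hi)
      unfold ordL
      rw [min_eq_left]
      · rfl
      · exact sg_dvd_iff.mp h
    have h2 := hord i hne
    rw [h1] at h2
    rw [sg_dvd_iff]
    unfold ordL at h2
    have h3 : ((η : ℕ) : ℕ∞) ≤ ((min (η : ℕ∞) (ev x' (G' i)).order).toNat : ℕ∞) := by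
      exact_mod_cast h2
    exact (h3.trans (ENat.coe_toNat_le_self _)).trans (min_le_right _ _)
  have hmain := ih k' G' hG' κ' η x' hx'
  obtain ⟨hc, hν, -, -⟩ := id hR
  have hk0 := rt_kap_nonneg d hd v j M0 ν (insert j B) hv.le hν
  have hk1 := rt_kap_le_one d hd v j M0 c ν (insert j B) hv hR
  -- σ estimate
  have hσ : ∑ m ∈ Finset.range (M0 + 1), ν m * sigB k d (insert j B) x m
      ≤ ∑ m ∈ Finset.range (M0 + 1), nuT (d j) M0 (fun a => mina a = 0) ν m * sigB k' d B x' m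
        + ((∑ i, e i : ℕ) : ℝ) * kap d v (insert j B) j M0 ν := by
    rw [rt_nuT_sum]
    unfold kap
    rw [Finset.mul_sum, ← Finset.sum_add_distrib]
    refine Finset.sum_le_sum fun m hm => ?_
    rw [Finset.mem_range] at hm
    have h := sg_T d v B j x x' e m hd hj hdj (by omega) G' hG' hx' (hT m (by omega))
    have h2 := mul_le_mul_of_nonneg_left h (hν m)
    refine h2.trans (le_of_eq ?_)
    ring
  have hcomp : Bᶜ = insert j (insert j B)ᶜ := by
    ext i
    simp only [Finset.mem_compl, Finset.mem_insert]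
    by_cases h : i = j
    · subst h
      simp [hj]
    · simp [h]
  have hjc : j ∉ (insert j B)ᶜ := by simp
  have hne : ∀ i ∈ (insert j B)ᶜ, i ≠ j := by
    intro i hi h
    subst h
    exact hjc hi
  rw [hcomp, Finset.sum_insert hjc, Function.update_self] at hmain
  have hc1 : ∑ i ∈ (insert j B)ᶜ, c i * (ordL η (ev x (G i)) : ℝ)
      ≤ ∑ i ∈ (insert j B)ᶜ, Function.update c j (kap d v (insert j B) j M0 ν) i
        * (ordL η (ev x' (G' i)) : ℝ) := by
    refine Finset.sum_le_sum fun i hi => ?_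
    rw [Function.update_of_ne (hne i hi)]
    exact mul_le_mul_of_nonneg_left (by exact_mod_cast hord i (hne i hi)) (hc i)
  rw [Finset.card_insert_of_notMem hj]
  rw [hordj'] at hmain
  have hcast : ((v - d j : ℕ) : ℝ) = (v : ℝ) - d j := Nat.cast_sub hdj.le
  rw [hcast] at hmain
  have htau' : (tauJ k x : ℝ) + η + ((∑ l, e l - η : ℕ) : ℝ) ≤ (tauJ k' x' : ℝ) + d j * η := by
    exact_mod_cast htau
  have hsplit : ((∑ l, e l : ℕ) : ℝ) = ((min η (∑ l, e l) : ℕ) : ℝ) + ((∑ l, e l - η : ℕ) : ℝ) := by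
    have : ∑ l, e l = min η (∑ l, e l) + (∑ l, e l - η) := by omega
    exact_mod_cast this
  have hk2 : kap d v (insert j B) j M0 ν * ((∑ l, e l - η : ℕ) : ℝ) ≤ ((∑ l, e l - η : ℕ) : ℝ) := by
    have h0 : (0 : ℝ) ≤ ((∑ l, e l - η : ℕ) : ℝ) := Nat.cast_nonneg _
    nlinarith
  rw [hsplit] at hσ
  push_cast
  nlinarith

/-- FACET STEP -/
theorem sg_step_F {p : ℕ} (d : Fin p → ℕ) (hd : ∀ i, 1 ≤ d i) (v : ℕ)
    (j : Fin p) (hv : d j < v) (M0 : ℕ) (c : Fin p → ℝ)
    (ν : ℕ → ℝ) (hR : Reg d v ∅ M0 c ν)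
    (ih : SS d (v - d j) ∅ M0 (Function.update c j (kap d v ∅ j M0 ν))
      (nuT (d j) M0 (fun _ => True) ν)) :
    SS d v ∅ M0 c ν := by
  intro k _ _ G hG κ _ _ L x hx
  obtain ⟨k', _, _, G', κ', _, _, x', e, η, hG', -, hη, hord, hordj, hordj', htau, hT⟩ :=
    torus_lemma d hd v j hv M0 k G hG κ L x
  have hmain := ih k' G' hG' κ' L x' (by simp)
  obtain ⟨hc, hν, -, h2⟩ := id hR
  have hk0 := rt_kap_nonneg d hd v j M0 ν ∅ (by simp) hν
  have hk1 := rt_kap_le_one d hd v j M0 c ν ∅ (by simp; omega) hR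
  have hfac := h2 j (by simp)
  have hσ : ∑ m ∈ Finset.range (M0 + 1), ν m * sigB k d ∅ x m
      ≤ ∑ m ∈ Finset.range (M0 + 1), nuT (d j) M0 (fun _ => True) ν m * sigB k' d ∅ x' m
        + ((∑ i, e i : ℕ) : ℝ) * kap d v ∅ j M0 ν
        + η * ∑ m ∈ Finset.range (M0 + 1), ν m * (HSum d v ∅ (d j) m : ℝ) := by
    rw [rt_nuT_sum]
    unfold kap
    rw [Finset.mul_sum, Finset.mul_sum, ← Finset.sum_add_distrib, ← Finset.sum_add_distrib]
    refine Finset.sum_le_sum fun m hm => ?_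
    rw [Finset.mem_range] at hm
    have h := sg_F d v j x x' e m hd hv η (hT m (by omega))
    have h2 := mul_le_mul_of_nonneg_left h (hν m)
    refine h2.trans (le_of_eq ?_)
    simp only [if_true]
    ring
  have hcast : ((v - d j : ℕ) : ℝ) = (v : ℝ) - d j := Nat.cast_sub hv.le
  rw [Finset.compl_empty] at hmain ⊢
  rw [← Finset.add_sum_erase Finset.univ _ (Finset.mem_univ j), Function.update_self, hordj',
    hcast] at hmain
  rw [← Finset.add_sum_erase Finset.univ (fun i => c i * (ordL L (ev x (G i)) : ℝ))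
    (Finset.mem_univ j)]
  have hc1 : ∑ i ∈ Finset.univ.erase j, c i * (ordL L (ev x (G i)) : ℝ)
      ≤ ∑ i ∈ Finset.univ.erase j, Function.update c j (kap d v ∅ j M0 ν) i
        * (ordL L (ev x' (G' i)) : ℝ) := by
    refine Finset.sum_le_sum fun i hi => ?_
    have hne := Finset.ne_of_mem_erase hi
    rw [Function.update_of_ne hne]
    exact mul_le_mul_of_nonneg_left (by exact_mod_cast hord i hne) (hc i)
  have hcj : c j * (ordL L (ev x (G j)) : ℝ) ≤ c j * η :=
    mul_le_mul_of_nonneg_left (by exact_mod_cast hordj) (hc j)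
  have htau' : (tauJ k x : ℝ) + η + ((∑ l, e l - L : ℕ) : ℝ) ≤ (tauJ k' x' : ℝ) + d j * L := by
    exact_mod_cast htau
  have hsplit : ((∑ l, e l : ℕ) : ℝ) = ((min L (∑ l, e l) : ℕ) : ℝ) + ((∑ l, e l - L : ℕ) : ℝ) := by
    have : ∑ l, e l = min L (∑ l, e l) + (∑ l, e l - L) := by omega
    exact_mod_cast this
  have hk2 : kap d v ∅ j M0 ν * ((∑ l, e l - L : ℕ) : ℝ) ≤ ((∑ l, e l - L : ℕ) : ℝ) := by
    have h0 : (0 : ℝ) ≤ ((∑ l, e l - L : ℕ) : ℝ) := Nat.cast_nonneg _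
    nlinarith
  have hη' : (c j + ∑ m ∈ Finset.range (M0 + 1), ν m * (HSum d v ∅ (d j) m : ℝ)) * η
      ≤ 1 * (η : ℝ) := mul_le_mul_of_nonneg_right hfac (Nat.cast_nonneg _)
  rw [hsplit] at hσ
  simp only [Finset.card_empty, Nat.cast_zero, sub_zero] at hmain ⊢
  nlinarith

end Pool.Agent.KSS
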