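import Pool.Agent.Lib_helper2.KSSP.RT
import Pool.Agent.Lib_helper2.KSSP.Base

/-!
# KSS (helper2): estimates for `σ_B`
-/

namespace Pool.Agent.KSS

open MvPolynomial

theorem st_shift (L : ℕ) (f : ℕ → ℝ) (hf : ∀ l ≤ L, 0 ≤ f l) (s : ℕ) :
    ∑ l ∈ Finset.Icc 1 L, f (l - s) ≤ s * f 0 + ∑ l ∈ Finset.Icc 1 L, f l := by
  have key : ∀ g : ℕ → ℝ, ∑ l ∈ Finset.Icc 1 L, g l = ∑ l ∈ Finset.range L, g (l + 1) := by
    intro g
    rw [Finset.range_eq_Ico, Finset.sum_Ico_add' g 0 L 1]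
    rfl
  induction s with
  | zero => simp
  | succ s ih =>
    have h1 : ∑ l ∈ Finset.Icc 1 L, f (l - (s + 1)) = ∑ l ∈ Finset.range L, f (l - s) := by
      rw [key]
      refine Finset.sum_congr rfl fun l _ => ?_
      rw [Nat.add_sub_add_right]
    have h2 : ∑ l ∈ Finset.range L, f (l - s) ≤ ∑ l ∈ Finset.range (L + 1), f (l - s) := by
      rw [Finset.sum_range_succ]
      have := hf (L - s) (Nat.sub_le _ _)
      linarith
    rw [Finset.sum_range_succ', ← key (fun l => f (l - s)), Nat.zero_sub] at h2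
    rw [h1]
    push_cast
    linarith

section

variable {k κ : Type} [Field k] [Field κ] [Algebra k κ] {v L : ℕ}

theorem st_Fil_le (x : Fin v → Fin L → κ) (m l : ℕ) :
    Fil k x m l ≤ homogeneousSubmodule (Fin v) k m := by
  intro F hF
  exact (mem_homogeneousSubmodule _ _).mpr hF.1

theorem st_Fil_zero (x : Fin v → Fin L → κ) (m : ℕ) :
    Fil k x m 0 = homogeneousSubmodule (Fin v) k m := by
  refine le_antisymm (st_Fil_le x m 0) ?_
  intro F hF
  refine ⟨(mem_homogeneousSubmodule _ _).mp hF, ?_⟩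
  rw [pow_zero]
  exact one_dvd _

theorem st_fin {p : ℕ} (d : Fin p → ℕ) (hv : 1 ≤ v) (m : ℕ) :
    FiniteDimensional k (homogeneousSubmodule (Fin v) k m) := by
  have h := finrank_hom k d v m
  have h2 := nb_pos d v hv m
  rw [← h] at h2
  exact FiniteDimensional.of_finrank_pos (by exact_mod_cast h2)

theorem st_IM_le {p : ℕ} (B : Finset (Fin p)) (G : Fin p → MvPolynomial (Fin v) k)
    (x : Fin v → Fin L → κ)
    (hx : ∀ i ∈ B, (PowerSeries.X : PowerSeries κ) ^ L ∣ ev x (G i)) (m l : ℕ) (hl : l ≤ L) :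
    IM (G '' (B : Set (Fin p))) m ≤ Fil k x m l := by
  intro F hF
  obtain ⟨h1, h2⟩ := hF
  refine ⟨(mem_homogeneousSubmodule _ _).mp h2, ?_⟩
  have h3 : Ideal.span (G '' (B : Set (Fin p)))
      ≤ (Ideal.span {(PowerSeries.X : PowerSeries κ) ^ L}).comap
        (aeval (R := k) (fun i => arc (x i))).toRingHom := by
    rw [Ideal.span_le]
    rintro _ ⟨i, hi, rfl⟩
    rw [SetLike.mem_coe, Ideal.mem_comap, Ideal.mem_span_singleton]
    exact hx i hi
  have h4 : F ∈ Ideal.span (G '' (B : Set (Fin p))) := h1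
  have h5 := h3 h4
  rw [Ideal.mem_comap, Ideal.mem_span_singleton] at h5
  exact (pow_dvd_pow _ hl).trans h5

theorem st_finrank_zero {p : ℕ} (d : Fin p → ℕ) (x : Fin v → Fin L → κ) (m : ℕ) :
    (Module.finrank k (Fil k x m 0) : ℝ) = (NN d v ∅ m : ℝ) := by
  rw [st_Fil_zero]
  exact_mod_cast congrArg (Int.cast : ℤ → ℝ) (finrank_hom k d v m)

theorem st_lower [CharZero k] {p : ℕ} (d : Fin p → ℕ) (hd : ∀ i, 1 ≤ d i) (hv : 1 ≤ v)
    (B : Finset (Fin p)) (hB : B.card ≤ v) (G : Fin p → MvPolynomial (Fin v) k) (hG : Gen d G)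
    (x : Fin v → Fin L → κ)
    (hx : ∀ i ∈ B, (PowerSeries.X : PowerSeries κ) ^ L ∣ ev x (G i)) (m l : ℕ) (hl : l ≤ L) :
    0 ≤ (Module.finrank k (Fil k x m l) : ℝ) - (NN d v ∅ m : ℝ) + (NN d v B m : ℝ) := by
  have : FiniteDimensional k (homogeneousSubmodule (Fin v) k m) := st_fin d hv m
  have : FiniteDimensional k (Fil k x m l) := Submodule.finiteDimensional_of_le (st_Fil_le x m l)
  have h1 := Submodule.finrank_mono (st_IM_le B G x hx m l hl)
  have h2 := hilb d hd v B hB k G hG m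
  have h3 : (Module.finrank k (IM (G '' (B : Set (Fin p))) m) : ℝ)
      = (NN d v ∅ m : ℝ) - (NN d v B m : ℝ) := by
    have := congrArg (Int.cast : ℤ → ℝ) h2
    push_cast at this
    exact this
  have h4 : (Module.finrank k (IM (G '' (B : Set (Fin p))) m) : ℝ)
      ≤ (Module.finrank k (Fil k x m l) : ℝ) := by exact_mod_cast h1
  linarith

end

theorem st_mina_le {d : ℕ} (a : Fin d → ℕ) (i : Fin d) : mina a ≤ a i :=
  ciInf_le (OrderBot.bddBelow (Set.range a)) i

section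

variable {p : ℕ} (d : Fin p → ℕ) (hd : ∀ i, 1 ≤ d i) (v : ℕ) (B : Finset (Fin p)) (j : Fin p)

/-- closed form of the linear terms, one equation -/
theorem st_lin_T (hd : ∀ i, 1 ≤ d i) (hj : j ∉ B) (hv : d j ≤ v) (m : ℕ) (e : Fin (d j) → ℕ) :
    (∑ a ∈ Exps (d j) m, if mina a = 0 then
        ((∑ i, a i * e i : ℕ) : ℝ) * (NN d (v - d j) B (m - ∑ i, a i) : ℝ) else 0)
      = ((∑ i, e i : ℕ) : ℝ)
        * ((HSum d v (insert j B) 1 m : ℝ) - (HSum d v (insert j B) (d j) m : ℝ)) := by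
  have h3 : ∀ l : Fin (d j), (∑ a ∈ Exps (d j) m,
      if mina a = 0 then (a l : ℝ) * (NN d (v - d j) B (m - ∑ i, a i) : ℝ) else 0)
        = (HSum d v (insert j B) 1 m : ℝ) - (HSum d v (insert j B) (d j) m : ℝ) := by
    intro l
    have := congrArg (Int.cast : ℤ → ℝ) (nc_N3 d hd v B j hv m hj l)
    push_cast at this
    linarith
  push_cast
  rw [Finset.sum_mul]
  have h4 : ∀ l : Fin (d j), (e l : ℝ) * ((HSum d v (insert j B) 1 m : ℝ)
      - (HSum d v (insert j B) (d j) m : ℝ))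
      = ∑ a ∈ Exps (d j) m,
      if mina a = 0 then (e l : ℝ) * ((a l : ℝ) * (NN d (v - d j) B (m - ∑ i, a i) : ℝ)) else 0 := by
    intro l
    rw [← h3 l, Finset.mul_sum]
    refine Finset.sum_congr rfl fun a _ => ?_
    split_ifs
    · rfl
    · rw [mul_zero]
  rw [Finset.sum_congr rfl fun l _ => h4 l, Finset.sum_comm]
  refine Finset.sum_congr rfl fun a _ => ?_
  by_cases h : mina a = 0
  · simp only [if_pos h]
    rw [Finset.sum_mul]
    refine Finset.sum_congr rfl fun l _ => ?_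
    ring
  · simp only [if_neg h]
    simp

/-- closed form of the linear terms, facet -/
theorem st_lin_F (hd : ∀ i, 1 ≤ d i) (hv : d j ≤ v) (m : ℕ) (e : Fin (d j) → ℕ) (η : ℕ) :
    (∑ a ∈ Exps (d j) m,
        ((∑ i, (a i - mina a) * e i + mina a * η : ℕ) : ℝ)
          * (NN d (v - d j) B (m - ∑ i, a i) : ℝ))
      = ((∑ i, e i : ℕ) : ℝ) * ((HSum d v B 1 m : ℝ) - (HSum d v B (d j) m : ℝ))
        + η * (HSum d v B (d j) m : ℝ) := by
  have h3 : ∀ l : Fin (d j), (∑ a ∈ Exps (d j) m,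
      (a l : ℝ) * (NN d (v - d j) B (m - ∑ i, a i) : ℝ)) = (HSum d v B 1 m : ℝ) := by
    intro l
    have := congrArg (Int.cast : ℤ → ℝ) (nc_N4 d v B j hv m l)
    push_cast at this
    linarith
  have h5 : (∑ a ∈ Exps (d j) m,
      (mina a : ℝ) * (NN d (v - d j) B (m - ∑ i, a i) : ℝ)) = (HSum d v B (d j) m : ℝ) := by
    have := congrArg (Int.cast : ℤ → ℝ) (nc_N5 d hd v B j hv m)
    push_cast at this
    linarith
  have h6 : ∀ l : Fin (d j), (e l : ℝ) * ((HSum d v B 1 m : ℝ) - (HSum d v B (d j) m : ℝ))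
      = ∑ a ∈ Exps (d j) m,
        ((a l - mina a : ℕ) : ℝ) * e l * (NN d (v - d j) B (m - ∑ i, a i) : ℝ) := by
    intro l
    rw [← h3 l, ← h5, ← Finset.sum_sub_distrib, Finset.mul_sum]
    refine Finset.sum_congr rfl fun a _ => ?_
    rw [Nat.cast_sub (st_mina_le a l)]
    ring
  rw [Nat.cast_sum, Finset.sum_mul, Finset.sum_congr rfl fun l _ => h6 l, Finset.sum_comm,
    ← h5, Finset.mul_sum, ← Finset.sum_add_distrib]
  refine Finset.sum_congr rfl fun a _ => ?_
  push_cast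
  rw [← Finset.sum_mul]
  ring

end

end Pool.Agent.KSS
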